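import Pool.Agent.Q134.SV.Rac

/-!
Averages of cochains over products of finite subgroups.
-/

set_option autoImplicit false

open scoped Classical

namespace Pool.Agent.J4.H27.EC

open Pool.Agent.Q134.SV

/-- the mean of a function on a finite type -/
noncomputable def mean (X : Type) (f : X → ℝ) : ℝ := (Nat.card X : ℝ)⁻¹ * ∑ᶠ x, f x

theorem mean_eq {X : Type} [Fintype X] (f : X → ℝ) :
    mean X f = (Fintype.card X : ℝ)⁻¹ * ∑ x, f x := by
  unfold mean
  rw [Nat.card_eq_fintype_card, finsum_eq_sum_of_fintype]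

theorem mean_equiv {X Y : Type} (e : X ≃ Y) (f : Y → ℝ) : mean X (fun x => f (e x)) = mean Y f := by
  unfold mean
  rw [Nat.card_congr e, finsum_comp_equiv e]

theorem mean_neg {X : Type} (f : X → ℝ) : mean X (fun x => - f x) = - mean X f := by
  unfold mean
  rw [finsum_neg_distrib, mul_neg]

theorem mean_const {X : Type} [Finite X] [Nonempty X] (t : ℝ) : mean X (fun _ => t) = t := by
  have := Fintype.ofFinite X
  rw [mean_eq, Finset.sum_const, Finset.card_univ, nsmul_eq_mul, ← mul_assoc, inv_mul_cancel₀, one_mul]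
  rw [Nat.cast_ne_zero]
  exact Fintype.card_ne_zero

theorem mean_unique {X : Type} [Unique X] (f : X → ℝ) : mean X f = f default := by
  rw [mean_eq]
  simp

theorem mean_sum {X ι : Type} [Finite X] (s : Finset ι) (f : ι → X → ℝ) :
    mean X (fun x => ∑ i ∈ s, f i x) = ∑ i ∈ s, mean X (f i) := by
  have := Fintype.ofFinite X
  simp only [mean_eq]
  rw [Finset.sum_comm, Finset.mul_sum]

theorem mean_mul {X : Type} [Finite X] (t : ℝ) (f : X → ℝ) :
    mean X (fun x => t * f x) = t * mean X f := by
  have := Fintype.ofFinite X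
  simp only [mean_eq]
  rw [← Finset.mul_sum]
  ring

/-- one of the factors does not matter -/
theorem mean_succAbove {n : ℕ} {X : Fin (n + 1) → Type} [∀ i, Finite (X i)] [∀ i, Nonempty (X i)]
    (j : Fin (n + 1)) (F : (∀ i, X (j.succAbove i)) → ℝ) :
    mean (∀ i, X i) (fun h => F fun i => h (j.succAbove i)) = mean (∀ i, X (j.succAbove i)) F := by
  have : ∀ i, Fintype (X i) := fun i => Fintype.ofFinite _
  rw [← mean_equiv (Fin.insertNthEquiv X j)]
  have h1 : ∀ p : X j × (∀ i, X (j.succAbove i)),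
      (fun i => (Fin.insertNthEquiv X j p) (j.succAbove i)) = p.2 := by
    intro p
    funext i
    simp
  simp only [h1]
  rw [mean_eq, mean_eq, Fintype.card_prod, Fintype.sum_prod_type]
  simp only [Finset.sum_const, Finset.card_univ, nsmul_eq_mul]
  rw [← mul_assoc]
  congr 1
  have h2 : (Fintype.card (X j) : ℝ) ≠ 0 := by
    rw [Nat.cast_ne_zero]
    exact Fintype.card_ne_zero
  rw [Nat.cast_mul, mul_inv]
  field_simp

/-- push-forward under a surjective homomorphism of finite groups -/
theorem mean_surj {A B : Type} [Group A] [Group B] [Finite A] (φ : A →* B)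
    (hφ : Function.Surjective φ) (f : B → ℝ) : mean A (fun x => f (φ x)) = mean B f := by
  have := Fintype.ofFinite A
  have hB : Finite B := Finite.of_surjective φ hφ
  have := Fintype.ofFinite B
  have h1 : ∀ b : B, (Finset.univ.filter fun x : A => φ x = b).card =
      (Finset.univ.filter fun x : A => φ x = 1).card := by
    intro b
    exact MonoidHom.card_fiber_eq_of_mem_range φ (hφ b) (hφ 1)
  have h2 : ∑ x : A, f (φ x) =
      ((Finset.univ.filter fun x : A => φ x = 1).card : ℝ) * ∑ b, f b := by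
    rw [← Finset.sum_fiberwise (s := Finset.univ) (g := fun x : A => φ x)
      (f := fun x => f (φ x)), Finset.mul_sum]
    refine Finset.sum_congr rfl fun b _ => ?_
    rw [Finset.sum_congr rfl (g := fun _ => f b) (by
      intro x hx
      rw [(Finset.mem_filter.1 hx).2]), Finset.sum_const, nsmul_eq_mul, h1]
  have h3 : (Fintype.card A : ℝ) =
      ((Finset.univ.filter fun x : A => φ x = 1).card : ℝ) * Fintype.card B := by
    have := Finset.card_eq_sum_card_fiberwise (s := (Finset.univ : Finset A))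
      (t := (Finset.univ : Finset B)) (f := fun x => φ x) (by
        intro x _
        exact Finset.mem_coe.2 (Finset.mem_univ _))
    rw [Finset.card_univ, Finset.sum_congr rfl fun b _ => h1 b, Finset.sum_const, Finset.card_univ,
      smul_eq_mul] at this
    rw [this]
    push_cast
    ring
  have h4 : ((Finset.univ.filter fun x : A => φ x = 1).card : ℝ) ≠ 0 := by
    rw [Nat.cast_ne_zero, Finset.card_ne_zero]
    exact ⟨1, Finset.mem_filter.2 ⟨Finset.mem_univ _, map_one _⟩⟩
  rw [mean_eq, mean_eq, h2, h3, mul_inv, mul_comm (_⁻¹) ((Fintype.card B : ℝ)⁻¹), mul_assoc,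
    ← mul_assoc _⁻¹ _ (∑ b, f b), inv_mul_cancel₀ h4, one_mul]

variable {Γ : Type} [Group Γ]

/-- the average of a cochain over cosets -/
noncomputable def av {n : ℕ} (c : (Fin n → Γ) → ℝ) (P : Fin n → Subgroup Γ) (x : Fin n → Γ) : ℝ :=
  mean (∀ i, P i) fun h => c fun i => x i * (h i : Γ)

/-- the average depends only on the cosets -/
theorem av_coset {n : ℕ} (c : (Fin n → Γ) → ℝ) (P : Fin n → Subgroup Γ) (x y : Fin n → Γ)
    (h : ∀ i, (x i)⁻¹ * y i ∈ P i) : av c P y = av c P x := by
  unfold av
  let e : (∀ i, P i) ≃ (∀ i, P i) := Equiv.piCongrRight fun i =>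
    Equiv.mulLeft (⟨(x i)⁻¹ * y i, h i⟩ : P i)
  rw [← mean_equiv e (fun g : ∀ i, P i => c fun i => x i * (g i : Γ))]
  congr 1
  funext g
  congr 1
  funext i
  have : ((e g i : P i) : Γ) = (x i)⁻¹ * y i * (g i : Γ) := rfl
  rw [this]
  group

theorem av_neg {n : ℕ} (c : (Fin n → Γ) → ℝ) (P : Fin n → Subgroup Γ) (x : Fin n → Γ) (w : Γ)
    (hc : ∀ g, c (fun i => w * g i) = - c g) : av c P (fun i => w * x i) = - av c P x := by
  unfold av
  rw [← mean_neg]
  congr 1
  funext h
  rw [← hc]
  congr 1
  funext i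
  rw [mul_assoc]

theorem av_bot {n : ℕ} (c : (Fin n → Γ) → ℝ) (x : Fin n → Γ) : av c (fun _ => ⊥) x = c x := by
  unfold av
  have : Unique (∀ _ : Fin n, (⊥ : Subgroup Γ)) := Pi.unique
  rw [mean_unique]
  congr 1
  funext i
  have h1 : ∀ z : (⊥ : Subgroup Γ), (z : Γ) = 1 := fun z => Subgroup.mem_bot.1 z.2
  rw [h1, mul_one]

/-- the cocycle identity for averages -/
theorem av_cobd {n : ℕ} (c : (Fin (n + 1) → Γ) → ℝ) (hc : ∀ g : Fin (n + 2) → Γ, cobd c g = 0)
    (Q : Fin (n + 2) → Subgroup Γ) [∀ i, Finite (Q i)] (y : Fin (n + 2) → Γ) :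
    ∑ j : Fin (n + 2), (-1 : ℝ) ^ (j : ℕ) * av c (Q ∘ j.succAbove) (y ∘ j.succAbove) = 0 := by
  have h1 : mean (∀ i, Q i) (fun h => cobd c fun i => y i * (h i : Γ)) = 0 := by
    simp only [hc]
    exact mean_const 0
  unfold cobd at h1
  rw [mean_sum] at h1
  rw [← h1]
  refine Finset.sum_congr rfl fun j _ => ?_
  rw [mean_mul]
  congr 1
  exact (mean_succAbove (X := fun i => Q i) j
    (fun h => c fun i => y (j.succAbove i) * (h i : Γ))).symm

/-- push-forward under a homomorphism -/
theorem av_map {n : ℕ} {W : Type} [Group W] (π : Γ →* W) (c : (Fin n → W) → ℝ)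
    (P : Fin n → Subgroup Γ) [∀ i, Finite (P i)] :
    av (fun g => c fun i => π (g i)) P 1 = av c (fun i => (P i).map π) 1 := by
  unfold av
  let φ : (∀ i, P i) →* (∀ i, (P i).map π) :=
    { toFun := fun h i => ⟨π (h i), Subgroup.mem_map_of_mem π (h i).2⟩
      map_one' := by
        funext i
        apply Subtype.ext
        simp
      map_mul' := fun a b => by
        funext i
        apply Subtype.ext
        simp }
  have hφ : Function.Surjective φ := by
    intro g
    choose h hh using fun i => (Subgroup.mem_map.1 (g i).2)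
    refine ⟨fun i => ⟨h i, (hh i).1⟩, ?_⟩
    funext i
    apply Subtype.ext
    exact (hh i).2
  rw [← mean_surj φ hφ]
  congr 1
  funext h
  change c _ = c _
  congr 1
  funext i
  simp [φ]

end Pool.Agent.J4.H27.EC
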