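import Mathlib

/-!
The circle of lines in the plane, its orientation cocycle, and reflections of the hyperbolic plane.
-/

set_option autoImplicit false

open scoped Classical

namespace Pool.Agent.J4.H27.EC

/-- the determinant of two vectors -/
def D (z w : ℝ × ℝ) : ℝ := z.1 * w.2 - z.2 * w.1

theorem D_self (z : ℝ × ℝ) : D z z = 0 := by unfold D; ring

theorem D_swap (z w : ℝ × ℝ) : D w z = - D z w := by unfold D; ring

theorem D_smul (t : ℝ) (z w : ℝ × ℝ) : D (t • z) w = t * D z w := by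
  unfold D
  simp only [Prod.smul_fst, Prod.smul_snd, smul_eq_mul]
  ring

theorem D_smul' (t : ℝ) (z w : ℝ × ℝ) : D z (t • w) = t * D z w := by
  unfold D
  simp only [Prod.smul_fst, Prod.smul_snd, smul_eq_mul]
  ring

theorem par_of_D {z w : ℝ × ℝ} (hz : z ≠ 0) (h : D z w = 0) : ∃ t : ℝ, w = t • z := by
  have hn : z.1 ^ 2 + z.2 ^ 2 ≠ 0 := by
    intro e
    apply hz
    have h1 : z.1 = 0 := by nlinarith [sq_nonneg z.1, sq_nonneg z.2]
    have h2 : z.2 = 0 := by nlinarith [sq_nonneg z.1, sq_nonneg z.2]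
    exact Prod.ext h1 h2
  unfold D at h
  refine ⟨(z.1 * w.1 + z.2 * w.2) / (z.1 ^ 2 + z.2 ^ 2), ?_⟩
  refine Prod.ext ?_ ?_
  · simp only [Prod.smul_fst, smul_eq_mul]
    field_simp
    linear_combination (-z.2) * h
  · simp only [Prod.smul_snd, smul_eq_mul]
    field_simp
    linear_combination z.1 * h

/-- the vectors different from zero -/
abbrev NZ := {z : ℝ × ℝ // z ≠ 0}

instance lineSetoid : Setoid NZ where
  r z w := D z w = 0
  iseqv :=
    { refl := fun z => D_self _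
      symm := fun {z w} h => by rw [D_swap, h, neg_zero]
      trans := fun {z w x} h h' => by
        obtain ⟨t, ht⟩ := par_of_D w.2 h'
        rw [ht, D_smul', h, mul_zero] }

/-- the lines in the plane: the circle at infinity of the hyperbolic plane -/
abbrev Ln := Quotient lineSetoid

theorem ln_eq (z w : NZ) : (⟦z⟧ : Ln) = ⟦w⟧ ↔ D z w = 0 := Quotient.eq

/-- the sign -/
noncomputable def sg (t : ℝ) : ℝ := if 0 < t then 1 else if t < 0 then -1 else 0

theorem sg_pos {t : ℝ} (h : 0 < t) : sg t = 1 := by unfold sg; rw [if_pos h]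

theorem sg_neg {t : ℝ} (h : t < 0) : sg t = -1 := by
  unfold sg; rw [if_neg (by linarith), if_pos h]

theorem sg_zero : sg 0 = 0 := by unfold sg; simp

theorem sg_opp (t : ℝ) : sg (-t) = - sg t := by
  rcases lt_trichotomy t 0 with h | h | h
  · rw [sg_neg h, sg_pos (by linarith)]; ring
  · rw [h, neg_zero, sg_zero, neg_zero]
  · rw [sg_pos h, sg_neg (by linarith)]

theorem sg_mul_pos {s : ℝ} (hs : 0 < s) (t : ℝ) : sg (s * t) = sg t := by
  rcases lt_trichotomy t 0 with h | h | h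
  · rw [sg_neg h, sg_neg (by nlinarith)]
  · rw [h, mul_zero]
  · rw [sg_pos h, sg_pos (by positivity)]

theorem abs_sg (t : ℝ) : |sg t| ≤ 1 := by
  rcases lt_trichotomy t 0 with h | h | h
  · rw [sg_neg h]; simp
  · rw [h, sg_zero]; simp
  · rw [sg_pos h]; simp

/-- the orientation of three vectors -/
noncomputable def o3 (z w x : ℝ × ℝ) : ℝ := sg (D z w * D w x * D x z)

theorem o3_smul (t : ℝ) (ht : t ≠ 0) (z w x : ℝ × ℝ) : o3 (t • z) w x = o3 z w x := by
  unfold o3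
  rw [D_smul, D_smul']
  have : t * D z w * D w x * (t * D x z) = t ^ 2 * (D z w * D w x * D x z) := by ring
  rw [this, sg_mul_pos (by positivity)]

theorem o3_rot (z w x : ℝ × ℝ) : o3 z w x = o3 w x z := by
  unfold o3
  congr 1
  ring

theorem o3_swap (z w x : ℝ × ℝ) : o3 w z x = - o3 z w x := by
  unfold o3
  rw [← sg_opp]
  congr 1
  rw [D_swap z w, D_swap x z, D_swap w x]
  ring

/-- the normalized vectors -/
noncomputable def nrm (z : ℝ × ℝ) : ℝ × ℝ := if 0 < z.2 ∨ (z.2 = 0 ∧ 0 < z.1) then z else (-1 : ℝ) • z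

/-- the normalized vectors lie in a half-plane -/
def IsN (z : ℝ × ℝ) : Prop := 0 < z.2 ∨ (z.2 = 0 ∧ 0 < z.1)

theorem isN_nrm {z : ℝ × ℝ} (hz : z ≠ 0) : IsN (nrm z) := by
  unfold nrm
  by_cases h : 0 < z.2 ∨ (z.2 = 0 ∧ 0 < z.1)
  · rw [if_pos h]
    exact h
  · rw [if_neg h]
    unfold IsN
    simp only [Prod.smul_fst, Prod.smul_snd, smul_eq_mul]
    push Not at h
    rcases lt_or_eq_of_le h.1 with h1 | h1
    · left; linarith
    · right
      refine ⟨by linarith, ?_⟩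
      have h2 := h.2 h1
      rcases lt_or_eq_of_le h2 with h3 | h3
      · linarith
      · exact absurd (Prod.ext h3 h1) hz

theorem nrm_sm (z : ℝ × ℝ) : ∃ t : ℝ, t ≠ 0 ∧ nrm z = t • z := by
  unfold nrm
  split_ifs
  · exact ⟨1, one_ne_zero, by simp⟩
  · exact ⟨-1, by norm_num, rfl⟩

theorem o3_nrm (z w x : ℝ × ℝ) : o3 (nrm z) (nrm w) (nrm x) = o3 z w x := by
  obtain ⟨a, ha, ea⟩ := nrm_sm z
  obtain ⟨b, hb, eb⟩ := nrm_sm w
  obtain ⟨c, hc, ec⟩ := nrm_sm x
  rw [ea, eb, ec, o3_smul _ ha, o3_rot, o3_smul _ hb, o3_rot, o3_smul _ hc, o3_rot]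

theorem isN_trans {z w x : ℝ × ℝ} (hz : IsN z) (hw : IsN w) (hx : IsN x) (h1 : 0 < D z w)
    (h2 : 0 < D w x) : 0 < D z x := by
  unfold D at *
  rcases hz with hz | ⟨hz, hz'⟩ <;> rcases hw with hw | ⟨hw, hw'⟩ <;>
    rcases hx with hx | ⟨hx, hx'⟩
  · by_contra hc
    push Not at hc
    have e : w.2 * (z.1 * x.2 - z.2 * x.1) =
      x.2 * (z.1 * w.2 - z.2 * w.1) + z.2 * (w.1 * x.2 - w.2 * x.1) := by ring
    have h3 : 0 < x.2 * (z.1 * w.2 - z.2 * w.1) := mul_pos hx h1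
    have h4 : 0 < z.2 * (w.1 * x.2 - w.2 * x.1) := mul_pos hz h2
    have h5 : w.2 * (z.1 * x.2 - z.2 * x.1) ≤ 0 := mul_nonpos_of_nonneg_of_nonpos hw.le hc
    linarith
  · rw [hx] at h2
    have : 0 < w.2 * x.1 := mul_pos hw hx'
    linarith
  · rw [hw] at h1
    have : 0 < z.2 * w.1 := mul_pos hz hw'
    linarith
  · rw [hw] at h1
    have : 0 < z.2 * w.1 := mul_pos hz hw'
    linarith
  · rw [hz]
    have : 0 < z.1 * x.2 := mul_pos hz' hx
    linarith
  · rw [hx] at h2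
    have : 0 < w.2 * x.1 := mul_pos hw hx'
    linarith
  · rw [hz]
    have : 0 < z.1 * x.2 := mul_pos hz' hx
    linarith
  · rw [hz, hw] at h1
    simp at h1

theorem isN_par {z w x : ℝ × ℝ} (hz : IsN z) (hw : IsN w) (h : D z w = 0) :
    sg (D w x) = sg (D z x) := by
  have hz0 : z ≠ 0 := by
    rintro rfl
    unfold IsN at hz
    simp at hz
  obtain ⟨t, ht⟩ := par_of_D hz0 h
  have ht0 : 0 < t := by
    rw [ht] at hw
    unfold IsN at hz hw
    simp only [Prod.smul_fst, Prod.smul_snd, smul_eq_mul] at hw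
    rcases hz with hz | ⟨hz, hz'⟩
    · rcases hw with hw | ⟨hw, hw'⟩
      · exact (pos_iff_pos_of_mul_pos hw).2 hz
      · rcases mul_eq_zero.1 hw with e | e
        · rw [e] at hw'
          simp at hw'
        · linarith
    · rw [hz] at hw
      simp only [mul_zero, lt_irrefl, true_and, false_or] at hw
      exact (pos_iff_pos_of_mul_pos hw).2 hz'
  rw [ht, D_smul, sg_mul_pos ht0]

/-- the orientation is a coboundary of the sign of the half-plane -/
theorem o3_eq {z w x : ℝ × ℝ} (hz : IsN z) (hw : IsN w) (hx : IsN x) :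
    o3 z w x = - (sg (D z w) + sg (D w x) + sg (D x z)) := by
  unfold o3
  rcases lt_trichotomy (D z w) 0 with h1 | h1 | h1
  · rcases lt_trichotomy (D w x) 0 with h2 | h2 | h2
    · have h3 : D x z > 0 := by
        have := isN_trans hx hw hz (by rw [D_swap]; linarith) (by rw [D_swap]; linarith)
        exact this
      rw [sg_neg h1, sg_neg h2, sg_pos h3, sg_pos]
      · ring
      · exact mul_pos (mul_pos_of_neg_of_neg h1 h2) h3
    · have e : sg (D x z) = - sg (D z w) := by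
        rw [isN_par hw hx h2, D_swap z w, sg_opp]
      rw [h2, e, mul_zero, zero_mul, sg_zero]
      ring
    · rcases lt_trichotomy (D x z) 0 with h3 | h3 | h3
      · rw [sg_neg h1, sg_pos h2, sg_neg h3, sg_pos]
        · ring
        · exact mul_pos_of_neg_of_neg (mul_neg_of_neg_of_pos h1 h2) h3
      · rw [h3, sg_neg h1, sg_pos h2, mul_zero, sg_zero]
        ring
      · rw [sg_neg h1, sg_pos h2, sg_pos h3, sg_neg]
        · ring
        · exact mul_neg_of_neg_of_pos (mul_neg_of_neg_of_pos h1 h2) h3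
  · have e : sg (D x z) = - sg (D w x) := by
      rw [D_swap z x, sg_opp, isN_par hz hw h1]
    rw [h1, e, zero_mul, zero_mul, sg_zero]
    ring
  · rcases lt_trichotomy (D w x) 0 with h2 | h2 | h2
    · rcases lt_trichotomy (D x z) 0 with h3 | h3 | h3
      · rw [sg_pos h1, sg_neg h2, sg_neg h3, sg_pos]
        · ring
        · exact mul_pos_of_neg_of_neg (mul_neg_of_pos_of_neg h1 h2) h3
      · rw [h3, sg_pos h1, sg_neg h2, mul_zero, sg_zero]
        ring
      · rw [sg_pos h1, sg_neg h2, sg_pos h3, sg_neg]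
        · ring
        · exact mul_neg_of_neg_of_pos (mul_neg_of_pos_of_neg h1 h2) h3
    · have e : sg (D x z) = - sg (D z w) := by
        rw [isN_par hw hx h2, D_swap z w, sg_opp]
      rw [h2, e, mul_zero, zero_mul, sg_zero]
      ring
    · have h3 : D x z < 0 := by
        have := isN_trans hz hw hx h1 h2
        rw [D_swap]
        linarith
      rw [sg_pos h1, sg_pos h2, sg_neg h3, sg_neg]
      · ring
      · exact mul_neg_of_pos_of_neg (mul_pos h1 h2) h3

theorem o3_coc {a b c d : ℝ × ℝ} (ha : a ≠ 0) (hb : b ≠ 0) (hc : c ≠ 0) (hd : d ≠ 0) :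
    o3 b c d - o3 a c d + o3 a b d - o3 a b c = 0 := by
  rw [← o3_nrm b c d, ← o3_nrm a c d, ← o3_nrm a b d, ← o3_nrm a b c,
    o3_eq (isN_nrm hb) (isN_nrm hc) (isN_nrm hd), o3_eq (isN_nrm ha) (isN_nrm hc) (isN_nrm hd),
    o3_eq (isN_nrm ha) (isN_nrm hb) (isN_nrm hd), o3_eq (isN_nrm ha) (isN_nrm hb) (isN_nrm hc)]
  have e : ∀ z w : ℝ × ℝ, sg (D z w) = - sg (D w z) := fun z w => by rw [D_swap w z, sg_opp]
  rw [e (nrm c) (nrm a), e (nrm d) (nrm a), e (nrm d) (nrm b)]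
  ring

/-- the orientation of three points of the circle -/
noncomputable def orr (p q r : Ln) : ℝ := o3 p.out.1 q.out.1 r.out.1

theorem out_sm (z : NZ) : ∃ t : ℝ, t ≠ 0 ∧ ((⟦z⟧ : Ln).out : ℝ × ℝ) = t • z.1 := by
  have h : D z.1 ((⟦z⟧ : Ln).out : ℝ × ℝ) = 0 := by
    have h1 : (⟦z⟧ : Ln) = ⟦(⟦z⟧ : Ln).out⟧ := (Quotient.out_eq _).symm
    exact (ln_eq _ _).1 h1
  obtain ⟨t, ht⟩ := par_of_D z.2 h
  refine ⟨t, ?_, ht⟩
  rintro rfl
  rw [zero_smul] at ht
  exact ((⟦z⟧ : Ln).out).2 ht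

theorem orr_mk (z w x : NZ) : orr ⟦z⟧ ⟦w⟧ ⟦x⟧ = o3 z.1 w.1 x.1 := by
  unfold orr
  obtain ⟨a, ha, ea⟩ := out_sm z
  obtain ⟨b, hb, eb⟩ := out_sm w
  obtain ⟨c, hc, ec⟩ := out_sm x
  rw [ea, eb, ec, o3_smul _ ha, o3_rot, o3_smul _ hb, o3_rot, o3_smul _ hc, o3_rot]

theorem orr_swap (p q r : Ln) : orr q p r = - orr p q r := o3_swap _ _ _

theorem orr_rot (p q r : Ln) : orr p q r = orr q r p := o3_rot _ _ _

theorem orr_swap' (p q r : Ln) : orr p r q = - orr p q r := by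
  rw [orr_rot, orr_swap, ← orr_rot]

theorem orr_left (p r : Ln) : orr p p r = 0 := by
  have := orr_swap p p r
  linarith

theorem orr_right (p r : Ln) : orr p r r = 0 := by
  rw [orr_rot, orr_left]

theorem orr_ends (p r : Ln) : orr p r p = 0 := by
  rw [orr_swap', orr_left, neg_zero]

theorem orr_coc (a b c d : Ln) : orr b c d - orr a c d + orr a b d - orr a b c = 0 :=
  o3_coc a.out.2 b.out.2 c.out.2 d.out.2

theorem abs_orr (p q r : Ln) : |orr p q r| ≤ 1 := abs_sg _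

/-! ### Reflections -/

/-- the traceless matrices -/
def rf (a b c : ℝ) (z : ℝ × ℝ) : ℝ × ℝ := (a * z.1 + b * z.2, c * z.1 - a * z.2)

theorem D_rf (a b c : ℝ) (z w : ℝ × ℝ) : D (rf a b c z) (rf a b c w) = - (a ^ 2 + b * c) * D z w := by
  unfold D rf
  ring

theorem rf_rf (a b c : ℝ) (z : ℝ × ℝ) : rf a b c (rf a b c z) = (a ^ 2 + b * c) • z := by
  unfold rf
  refine Prod.ext ?_ ?_
  · simp only [Prod.smul_fst, smul_eq_mul]
    ring
  · simp only [Prod.smul_snd, smul_eq_mul]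
    ring

theorem rf_ne {a b c : ℝ} (h : 0 < a ^ 2 + b * c) {z : ℝ × ℝ} (hz : z ≠ 0) : rf a b c z ≠ 0 := by
  intro e
  have h1 := rf_rf a b c z
  rw [e] at h1
  have h2 : rf a b c 0 = 0 := by
    unfold rf
    simp
  rw [h2] at h1
  rcases smul_eq_zero.1 h1.symm with h3 | h3
  · linarith
  · exact hz h3

/-- the reflection as a map of the circle -/
noncomputable def rp (a b c : ℝ) (h : 0 < a ^ 2 + b * c) : Equiv.Perm Ln where
  toFun := Quotient.map (fun z : NZ => (⟨rf a b c z.1, rf_ne h z.2⟩ : NZ)) fun z w hzw => by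
    change D (rf a b c z.1) (rf a b c w.1) = 0
    have : D z.1 w.1 = 0 := hzw
    rw [D_rf, this, mul_zero]
  invFun := Quotient.map (fun z : NZ => (⟨rf a b c z.1, rf_ne h z.2⟩ : NZ)) fun z w hzw => by
    change D (rf a b c z.1) (rf a b c w.1) = 0
    have : D z.1 w.1 = 0 := hzw
    rw [D_rf, this, mul_zero]
  left_inv := by
    intro p
    refine Quotient.inductionOn p fun z => ?_
    change (⟦⟨rf a b c (rf a b c z.1), _⟩⟧ : Ln) = ⟦z⟧
    rw [ln_eq]
    change D (rf a b c (rf a b c z.1)) z.1 = 0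
    rw [rf_rf, D_smul, D_self, mul_zero]
  right_inv := by
    intro p
    refine Quotient.inductionOn p fun z => ?_
    change (⟦⟨rf a b c (rf a b c z.1), _⟩⟧ : Ln) = ⟦z⟧
    rw [ln_eq]
    change D (rf a b c (rf a b c z.1)) z.1 = 0
    rw [rf_rf, D_smul, D_self, mul_zero]

theorem rp_mk (a b c : ℝ) (h : 0 < a ^ 2 + b * c) (z : NZ) :
    rp a b c h ⟦z⟧ = ⟦⟨rf a b c z.1, rf_ne h z.2⟩⟧ := rfl

theorem rp_mul_self (a b c : ℝ) (h : 0 < a ^ 2 + b * c) : rp a b c h * rp a b c h = 1 := by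
  ext p
  exact (rp a b c h).left_inv p

theorem rp_comm {a b c a' b' c' : ℝ} (h : 0 < a ^ 2 + b * c) (h' : 0 < a' ^ 2 + b' * c')
    (hp : 2 * a * a' + b * c' + c * b' = 0) :
    rp a b c h * rp a' b' c' h' = rp a' b' c' h' * rp a b c h := by
  ext p
  refine Quotient.inductionOn p fun z => ?_
  change (⟦⟨rf a b c (rf a' b' c' z.1), _⟩⟧ : Ln) = ⟦⟨rf a' b' c' (rf a b c z.1), _⟩⟧
  rw [ln_eq]
  change D (rf a b c (rf a' b' c' z.1)) (rf a' b' c' (rf a b c z.1)) = 0
  have e : rf a' b' c' (rf a b c z.1) = (-1 : ℝ) • rf a b c (rf a' b' c' z.1) := by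
    unfold rf
    refine Prod.ext ?_ ?_
    · simp only [Prod.smul_fst, smul_eq_mul]
      linear_combination z.1.1 * hp
    · simp only [Prod.smul_snd, smul_eq_mul]
      linear_combination z.1.2 * hp
  rw [e, D_smul', D_self, mul_zero]

theorem o3_rf {a b c : ℝ} (h : 0 < a ^ 2 + b * c) (z w x : ℝ × ℝ) :
    o3 (rf a b c z) (rf a b c w) (rf a b c x) = - o3 z w x := by
  unfold o3
  rw [D_rf, D_rf, D_rf, ← sg_opp]
  have e : -(a ^ 2 + b * c) * D z w * (-(a ^ 2 + b * c) * D w x) * (-(a ^ 2 + b * c) * D x z) =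
    (a ^ 2 + b * c) ^ 3 * -(D z w * D w x * D x z) := by ring
  rw [e, sg_mul_pos (by positivity)]

theorem orr_rp (a b c : ℝ) (h : 0 < a ^ 2 + b * c) (p q r : Ln) :
    orr (rp a b c h p) (rp a b c h q) (rp a b c h r) = - orr p q r := by
  refine Quotient.inductionOn₃ p q r fun z w x => ?_
  rw [rp_mk, rp_mk, rp_mk, orr_mk, orr_mk]
  exact o3_rf h _ _ _

end Pool.Agent.J4.H27.EC
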