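import Pool.Agent.J4.H27.EC.Poly

/-!
The Lambert quadrilaterals.
-/

set_option autoImplicit false

open scoped Classical

namespace Pool.Agent.J4.H27.EC

open Equiv (Perm)
open Real

/-- rotation of vectors -/
noncomputable def rot (φ : ℝ) (z : ℝ × ℝ) : ℝ × ℝ :=
  (cos φ * z.1 - sin φ * z.2, sin φ * z.1 + cos φ * z.2)

theorem rot_rot (φ φ' : ℝ) (z : ℝ × ℝ) : rot φ (rot φ' z) = rot (φ + φ') z := by
  unfold rot
  rw [cos_add, sin_add]
  refine Prod.ext ?_ ?_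
  · ring
  · ring

theorem rot_zero (z : ℝ × ℝ) : rot 0 z = z := by
  unfold rot
  simp

theorem rot_ne (φ : ℝ) {z : ℝ × ℝ} (hz : z ≠ 0) : rot φ z ≠ 0 := by
  intro e
  have h : rot (-φ) (rot φ z) = z := by
    rw [rot_rot, neg_add_cancel, rot_zero]
  rw [e] at h
  have h0 : rot (-φ) 0 = 0 := by
    unfold rot
    simp
  rw [h0] at h
  exact hz h.symm

/-- the point of the circle with angle `φ` -/
noncomputable def pt (φ : ℝ) : NZ := ⟨rot φ (1, 0), rot_ne φ (by simp)⟩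

theorem pt_fst (φ : ℝ) : (pt φ).1.1 = cos φ := by
  change cos φ * 1 - sin φ * 0 = _
  ring

theorem pt_snd (φ : ℝ) : (pt φ).1.2 = sin φ := by
  change sin φ * 1 + cos φ * 0 = _
  ring

theorem D_pt (φ φ' : ℝ) : D (pt φ).1 (pt φ').1 = sin (φ' - φ) := by
  unfold D
  rw [pt_fst, pt_fst, pt_snd, pt_snd, sin_sub]
  ring

theorem orr_pt (a b c : ℝ) : orr ⟦pt a⟧ ⟦pt b⟧ ⟦pt c⟧ = sg (sin (b - a) * sin (c - b) * sin (a - c)) := by
  rw [orr_mk]
  unfold o3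
  rw [D_pt, D_pt, D_pt]

section

variable (m : ℕ)

/-- the angle -/
noncomputable def ψ : ℝ := π / (4 * m)

theorem four_psi (hm : 0 < m) : (m : ℝ) * (4 * ψ m) = π := by
  unfold ψ
  have : (m : ℝ) ≠ 0 := by positivity
  field_simp

theorem psi_pos (hm : 0 < m) : 0 < ψ m := by
  unfold ψ
  have : (0 : ℝ) < m := by exact_mod_cast hm
  have := pi_pos
  positivity

theorem t_pos (t : ℝ) : 0 < cos t ^ 2 + sin t * sin t := by
  have := cos_sq_add_sin_sq t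
  nlinarith

/-- the side `t` -/
noncomputable def lT : Perm Ln := rp (cos (4 * ψ m)) (sin (4 * ψ m)) (sin (4 * ψ m)) (t_pos _)

/-- the side `s` -/
noncomputable def lS : Perm Ln := rp 1 0 0 (by norm_num)

theorem lS_pt (φ : ℝ) : lS ⟦pt φ⟧ = ⟦pt (-φ)⟧ := by
  unfold lS
  rw [rp_mk, ln_eq]
  change D (rf 1 0 0 (pt φ).1) (pt (-φ)).1 = 0
  unfold D rf
  simp only [pt_fst, pt_snd, cos_neg, sin_neg]
  ring

theorem lT_pt (φ : ℝ) : lT m ⟦pt φ⟧ = ⟦pt (4 * ψ m - φ)⟧ := by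
  unfold lT
  rw [rp_mk, ln_eq]
  change D (rf _ _ _ (pt φ).1) (pt _).1 = 0
  unfold D rf
  simp only [pt_fst, pt_snd, cos_sub, sin_sub]
  ring

theorem ST_mk (z : NZ) : (lS * lT m) ⟦z⟧ = ⟦⟨rot (-(4 * ψ m)) z.1, rot_ne _ z.2⟩⟧ := by
  unfold lT lS
  rw [Equiv.Perm.coe_mul, Function.comp_apply, rp_mk, rp_mk, ln_eq]
  change D (rf 1 0 0 (rf _ _ _ z.1)) (rot _ z.1) = 0
  have : rf 1 0 0 (rf (cos (4 * ψ m)) (sin (4 * ψ m)) (sin (4 * ψ m)) z.1) =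
      rot (-(4 * ψ m)) z.1 := by
    unfold rf rot
    rw [cos_neg, sin_neg]
    refine Prod.ext ?_ ?_
    · ring
    · ring
  rw [this, D_self]

theorem ST_pow (j : ℕ) (z : NZ) :
    ((lS * lT m) ^ j) ⟦z⟧ = ⟦⟨rot (-(j * (4 * ψ m))) z.1, rot_ne _ z.2⟩⟧ := by
  induction j with
  | zero =>
    rw [pow_zero, Equiv.Perm.coe_one, id_eq, ln_eq]
    change D z.1 (rot _ z.1) = 0
    rw [Nat.cast_zero, zero_mul, neg_zero, rot_zero, D_self]
  | succ j ih =>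
    rw [pow_succ', Equiv.Perm.coe_mul, Function.comp_apply, ih, ST_mk, ln_eq]
    change D (rot _ (rot _ z.1)) (rot _ z.1) = 0
    rw [rot_rot]
    have : -(4 * ψ m) + -(j * (4 * ψ m)) = -(((j + 1 : ℕ) : ℝ) * (4 * ψ m)) := by
      push_cast
      ring
    rw [this, D_self]

theorem ST_rot (hm : 0 < m) : (lS * lT m) ^ m = 1 := by
  ext p
  refine Quotient.inductionOn p fun z => ?_
  rw [ST_pow, Equiv.Perm.coe_one, id_eq, ln_eq, four_psi m hm]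
  change D (rot (-π) z.1) z.1 = 0
  unfold D rot
  rw [cos_neg, sin_neg, cos_pi, sin_pi]
  ring

theorem ST_pt (j : ℕ) (φ : ℝ) : ((lS * lT m) ^ j) ⟦pt φ⟧ = ⟦pt (φ - j * (4 * ψ m))⟧ := by
  rw [ST_pow, ln_eq]
  change D (rot _ (rot _ _)) (rot _ _) = 0
  rw [rot_rot]
  have : -((j : ℝ) * (4 * ψ m)) + φ = φ - j * (4 * ψ m) := by ring
  rw [this, D_self]

theorem lS_inv : lS * lS = 1 := rp_mul_self _ _ _ _

theorem lT_inv : lT m * lT m = 1 := rp_mul_self _ _ _ _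

theorem TS_eq : lT m * lS = (lS * lT m)⁻¹ := by
  have h1 : (lT m)⁻¹ = lT m := inv_eq_of_mul_eq_one_left (lT_inv m)
  have h2 : lS⁻¹ = lS := inv_eq_of_mul_eq_one_left lS_inv
  rw [mul_inv_rev, h1, h2]

theorem TS_pt (j : ℕ) (φ : ℝ) : ((lT m * lS) ^ j) ⟦pt φ⟧ = ⟦pt (φ + j * (4 * ψ m))⟧ := by
  rw [TS_eq, inv_pow, Equiv.Perm.inv_eq_iff_eq, ST_pt]
  congr 2
  ring

theorem TS_rot (hm : 0 < m) : (lT m * lS) ^ m = 1 := by
  rw [TS_eq, inv_pow, ST_rot m hm, inv_one]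

theorem lS_fin (hm : 0 < m) : Finite (Subgroup.closure {lS, lT m}) :=
  (mean_dih lS (lT m) lS_inv (lT_inv m) m hm (ST_rot m hm)).1

theorem lT_fin (hm : 0 < m) : Finite (Subgroup.closure {lT m, lS}) :=
  (mean_dih (lT m) lS (lT_inv m) lS_inv m hm (TS_rot m hm)).1

theorem sum_one (hm : 0 < m) (f : ℕ → ℝ) (h0 : f 0 = 0) (t : ℝ)
    (h : ∀ j, 1 ≤ j → j < m → f j = t) : ∑ j ∈ Finset.range m, f j = (m - 1) * t := by
  obtain ⟨n, rfl⟩ : ∃ n, m = n + 1 := ⟨m - 1, by omega⟩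
  rw [Finset.sum_range_succ', h0, add_zero]
  rw [Finset.sum_congr rfl (g := fun _ => t) (by
    intro j hj
    rw [Finset.mem_range] at hj
    exact h (j + 1) (by omega) (by omega))]
  rw [Finset.sum_const, Finset.card_range, nsmul_eq_mul]
  push_cast
  ring

theorem sin_j {j : ℕ} (hj : 1 ≤ j) (hjm : j < m) : 0 < sin (j * (4 * ψ m)) := by
  have hm : 0 < m := by omega
  have h1 := psi_pos m hm
  have h2 := four_psi m hm
  have h3 : (j : ℝ) < m := by exact_mod_cast hjm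
  have h4 : (0 : ℝ) < j := by exact_mod_cast hj
  apply sin_pos_of_pos_of_lt_pi
  · positivity
  · rw [← h2]
    exact mul_lt_mul_of_pos_right h3 (by positivity)

theorem sin_jm {j : ℕ} (hj : 1 ≤ j) (hjm : j < m) : 0 < sin (j * (4 * ψ m) - 2 * ψ m) := by
  have hm : 0 < m := by omega
  have h1 := psi_pos m hm
  have h2 := four_psi m hm
  have h3 : (j : ℝ) < m := by exact_mod_cast hjm
  have h4 : (1 : ℝ) ≤ j := by exact_mod_cast hj
  apply sin_pos_of_pos_of_lt_pi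
  · nlinarith
  · rw [← h2]
    nlinarith

theorem sin_jp {j : ℕ} (hj : 1 ≤ j) (hjm : j < m) : 0 < sin (j * (4 * ψ m) + 2 * ψ m) := by
  have hm : 0 < m := by omega
  have h1 := psi_pos m hm
  have h2 := four_psi m hm
  have h3 : (j : ℝ) + 1 ≤ m := by exact_mod_cast hjm
  have h4 : (1 : ℝ) ≤ j := by exact_mod_cast hj
  apply sin_pos_of_pos_of_lt_pi
  · nlinarith
  · rw [← h2]
    nlinarith

theorem sin_2 (hm : 0 < m) : 0 < sin (2 * ψ m) := by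
  have h1 := psi_pos m hm
  have h2 := four_psi m hm
  have h3 : (1 : ℝ) ≤ m := by exact_mod_cast hm
  apply sin_pos_of_pos_of_lt_pi
  · positivity
  · rw [← h2]
    nlinarith

theorem sin_4 (hm : 2 ≤ m) : 0 < sin (4 * ψ m) := by
  have h1 := psi_pos m (by omega)
  have h2 := four_psi m (by omega)
  have h3 : (2 : ℝ) ≤ m := by exact_mod_cast hm
  apply sin_pos_of_pos_of_lt_pi
  · positivity
  · rw [← h2]
    nlinarith

theorem sin_6 (hm : 2 ≤ m) : 0 < sin (6 * ψ m) := by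
  have h1 := psi_pos m (by omega)
  have h2 := four_psi m (by omega)
  have h3 : (2 : ℝ) ≤ m := by exact_mod_cast hm
  apply sin_pos_of_pos_of_lt_pi
  · positivity
  · rw [← h2]
    nlinarith

theorem Fv_ST (hm : 0 < m) : Fv ⟦pt (ψ m)⟧ lS (lT m) = (1 / 2) * (1 - 1 / m) := by
  have h2 := sin_2 m hm
  rw [Fv_eq _ _ _ lS_inv (lS_fin m hm),
    (mean_dih lS (lT m) lS_inv (lT_inv m) m hm (ST_rot m hm)).2
      (fun h => orr ⟦pt (ψ m)⟧ (lS ⟦pt (ψ m)⟧) (h ⟦pt (ψ m)⟧))]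
  have e : ∀ j : ℕ, orr ⟦pt (ψ m)⟧ (lS ⟦pt (ψ m)⟧) (((lS * lT m) ^ j) ⟦pt (ψ m)⟧) +
      orr ⟦pt (ψ m)⟧ (lS ⟦pt (ψ m)⟧) (((lS * lT m) ^ j * lS) ⟦pt (ψ m)⟧) =
      sg (sin (2 * ψ m) * (sin (j * (4 * ψ m) - 2 * ψ m) * sin (j * (4 * ψ m)))) +
      sg (sin (2 * ψ m) * (sin (j * (4 * ψ m)) * sin (j * (4 * ψ m) + 2 * ψ m))) := by
    intro j
    rw [Equiv.Perm.coe_mul, Function.comp_apply, lS_pt, ST_pt, ST_pt, orr_pt, orr_pt]
    congr 1
    · congr 1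
      have e1 : -ψ m - ψ m = - (2 * ψ m) := by ring
      have e2 : ψ m - j * (4 * ψ m) - -ψ m = - (j * (4 * ψ m) - 2 * ψ m) := by ring
      have e3 : ψ m - (ψ m - j * (4 * ψ m)) = j * (4 * ψ m) := by ring
      rw [e1, e2, e3, sin_neg, sin_neg]
      ring
    · congr 1
      have e1 : -ψ m - ψ m = - (2 * ψ m) := by ring
      have e2 : -ψ m - j * (4 * ψ m) - -ψ m = - (j * (4 * ψ m)) := by ring
      have e3 : ψ m - (-ψ m - j * (4 * ψ m)) = j * (4 * ψ m) + 2 * ψ m := by ring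
      rw [e1, e2, e3, sin_neg, sin_neg]
      ring
  rw [Finset.sum_congr rfl fun j _ => e j]
  rw [sum_one m hm _ (by simp [sg_zero]) 2]
  · have : (m : ℝ) ≠ 0 := by positivity
    field_simp
    try ring
  · intro j hj hjm
    have h3 := sin_j m hj hjm
    have h4 := sin_jm m hj hjm
    have h5 := sin_jp m hj hjm
    rw [sg_pos (by positivity), sg_pos (by positivity)]
    norm_num

theorem Fv_TS (hm : 0 < m) : Fv ⟦pt (ψ m)⟧ (lT m) lS = - ((1 / 2) * (1 - 1 / m)) := by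
  have h2 := sin_2 m hm
  rw [Fv_eq _ _ _ (lT_inv m) (lT_fin m hm),
    (mean_dih (lT m) lS (lT_inv m) lS_inv m hm (TS_rot m hm)).2
      (fun h => orr ⟦pt (ψ m)⟧ (lT m ⟦pt (ψ m)⟧) (h ⟦pt (ψ m)⟧))]
  have e : ∀ j : ℕ, orr ⟦pt (ψ m)⟧ (lT m ⟦pt (ψ m)⟧) (((lT m * lS) ^ j) ⟦pt (ψ m)⟧) +
      orr ⟦pt (ψ m)⟧ (lT m ⟦pt (ψ m)⟧) (((lT m * lS) ^ j * lT m) ⟦pt (ψ m)⟧) =
      sg (-(sin (2 * ψ m) * (sin (j * (4 * ψ m) - 2 * ψ m) * sin (j * (4 * ψ m))))) +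
      sg (-(sin (2 * ψ m) * (sin (j * (4 * ψ m)) * sin (j * (4 * ψ m) + 2 * ψ m)))) := by
    intro j
    rw [Equiv.Perm.coe_mul, Function.comp_apply, lT_pt, TS_pt, TS_pt, orr_pt, orr_pt]
    congr 1
    · congr 1
      have e1 : 4 * ψ m - ψ m - ψ m = 2 * ψ m := by ring
      have e2 : ψ m + j * (4 * ψ m) - (4 * ψ m - ψ m) = j * (4 * ψ m) - 2 * ψ m := by ring
      have e3 : ψ m - (ψ m + j * (4 * ψ m)) = -(j * (4 * ψ m)) := by ring
      rw [e1, e2, e3, sin_neg]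
      ring
    · congr 1
      have e1 : 4 * ψ m - ψ m - ψ m = 2 * ψ m := by ring
      have e2 : 4 * ψ m - ψ m + j * (4 * ψ m) - (4 * ψ m - ψ m) = j * (4 * ψ m) := by ring
      have e3 : ψ m - (4 * ψ m - ψ m + j * (4 * ψ m)) = -(j * (4 * ψ m) + 2 * ψ m) := by ring
      rw [e1, e2, e3, sin_neg]
      ring
  rw [Finset.sum_congr rfl fun j _ => e j]
  rw [sum_one m hm _ (by simp [sg_zero]) (-2)]
  · have : (m : ℝ) ≠ 0 := by positivity
    field_simp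
    try ring
  · intro j hj hjm
    have h3 := sin_j m hj hjm
    have h4 := sin_jm m hj hjm
    have h5 := sin_jp m hj hjm
    rw [sg_opp, sg_opp, sg_pos (by positivity), sg_pos (by positivity)]
    norm_num

/-! ### The other sides -/

theorem al_pos (hm : 2 ≤ m) : 0 < (0 : ℝ) ^ 2 + cos (ψ m) ^ 2 * sin (ψ m) ^ 2 := by
  have h := sin_2 m (by omega)
  rw [sin_two_mul] at h
  have : 0 < (2 * sin (ψ m) * cos (ψ m)) ^ 2 := by positivity
  nlinarith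

theorem be_pos (hm : 2 ≤ m) : 0 < (-(sin (4 * ψ m) * cos (2 * ψ m))) ^ 2 +
    2 * cos (ψ m) ^ 2 * cos (4 * ψ m) * (-(2 * sin (ψ m) ^ 2 * cos (4 * ψ m))) := by
  have h2 := sin_2 m (by omega)
  have h6 := sin_6 m hm
  have e1 : sin (6 * ψ m) = sin (4 * ψ m) * cos (2 * ψ m) + cos (4 * ψ m) * sin (2 * ψ m) := by
    rw [← sin_add]
    congr 1
    ring
  have e2 : sin (2 * ψ m) = sin (4 * ψ m) * cos (2 * ψ m) - cos (4 * ψ m) * sin (2 * ψ m) := by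
    rw [← sin_sub]
    congr 1
    ring
  have e3 : sin (2 * ψ m) = 2 * sin (ψ m) * cos (ψ m) := sin_two_mul _
  have h : 0 < sin (6 * ψ m) * sin (2 * ψ m) := mul_pos h6 h2
  have e4 : sin (6 * ψ m) * sin (2 * ψ m) = (-(sin (4 * ψ m) * cos (2 * ψ m))) ^ 2 +
    2 * cos (ψ m) ^ 2 * cos (4 * ψ m) * (-(2 * sin (ψ m) ^ 2 * cos (4 * ψ m))) := by
    calc sin (6 * ψ m) * sin (2 * ψ m) = (sin (4 * ψ m) * cos (2 * ψ m) +
        cos (4 * ψ m) * sin (2 * ψ m)) * (sin (4 * ψ m) * cos (2 * ψ m) -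
        cos (4 * ψ m) * sin (2 * ψ m)) := by rw [← e1, ← e2]
      _ = (sin (4 * ψ m) * cos (2 * ψ m)) ^ 2 - cos (4 * ψ m) ^ 2 * sin (2 * ψ m) ^ 2 := by ring
      _ = _ := by rw [e3]; ring
  rw [← e4]
  exact h

/-- the side `α` -/
noncomputable def lA (hm : 2 ≤ m) : Perm Ln := rp 0 (cos (ψ m) ^ 2) (sin (ψ m) ^ 2) (al_pos m hm)

/-- the side `β` -/
noncomputable def lB (hm : 2 ≤ m) : Perm Ln := rp (-(sin (4 * ψ m) * cos (2 * ψ m)))
  (2 * cos (ψ m) ^ 2 * cos (4 * ψ m)) (-(2 * sin (ψ m) ^ 2 * cos (4 * ψ m))) (be_pos m hm)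

theorem lA_xi (hm : 2 ≤ m) : lA m hm ⟦pt (ψ m)⟧ = ⟦pt (ψ m)⟧ := by
  unfold lA
  rw [rp_mk, ln_eq]
  change D (rf _ _ _ (pt _).1) (pt _).1 = 0
  unfold D rf
  simp only [pt_fst, pt_snd]
  ring

theorem lB_xi (hm : 2 ≤ m) : lB m hm ⟦pt (ψ m)⟧ = ⟦pt (-ψ m)⟧ := by
  unfold lB
  rw [rp_mk, ln_eq]
  change D (rf _ _ _ (pt _).1) (pt _).1 = 0
  unfold D rf
  simp only [pt_fst, pt_snd, cos_neg, sin_neg]
  ring

theorem SA_comm (hm : 2 ≤ m) : lS * lA m hm = lA m hm * lS := by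
  refine rp_comm _ _ ?_
  ring

theorem TB_comm (hm : 2 ≤ m) : lT m * lB m hm = lB m hm * lT m := by
  refine rp_comm _ _ ?_
  have e : cos (2 * ψ m) = cos (ψ m) ^ 2 - sin (ψ m) ^ 2 := by
    rw [cos_two_mul', ]
  rw [e]
  ring

theorem AB_comm (hm : 2 ≤ m) : lA m hm * lB m hm = lB m hm * lA m hm := by
  refine rp_comm _ _ ?_
  ring

/-- the sides of the quadrilateral -/
noncomputable def lR (hm : 2 ≤ m) : Fin 5 → Perm Ln :=
  ![lS, lT m, lB m hm, lA m hm, lA m hm]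

theorem lam_comm (hm : 2 ≤ m) : ∀ x y : Fin 5, pa false x y → ¬ (x = 0 ∧ y = 1) →
    ¬ (x = 1 ∧ y = 0) → lR m hm x * lR m hm y = lR m hm y * lR m hm x := by
  intro x y h h1 h2
  fin_cases x <;> fin_cases y <;> first
    | exact absurd h (by decide)
    | exact absurd ⟨rfl, rfl⟩ h1
    | exact absurd ⟨rfl, rfl⟩ h2
    | exact SA_comm m hm
    | exact (SA_comm m hm).symm
    | exact TB_comm m hm
    | exact (TB_comm m hm).symm
    | exact AB_comm m hm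
    | exact (AB_comm m hm).symm

theorem lam_inv (hm : 2 ≤ m) (j : Fin 5) : lR m hm j * lR m hm j = 1 := by
  fin_cases j
  · exact lS_inv
  · exact lT_inv m
  · exact rp_mul_self _ _ _ (be_pos m hm)
  · exact rp_mul_self _ _ _ (al_pos m hm)
  · exact rp_mul_self _ _ _ (al_pos m hm)

theorem lam_rev (hm : 2 ≤ m) (j : Fin 5) (p q r : Ln) :
    orr (lR m hm j p) (lR m hm j q) (lR m hm j r) = - orr p q r := by
  fin_cases j
  · exact orr_rp _ _ _ (by norm_num) p q r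
  · exact orr_rp _ _ _ (t_pos _) p q r
  · exact orr_rp _ _ _ (be_pos m hm) p q r
  · exact orr_rp _ _ _ (al_pos m hm) p q r
  · exact orr_rp _ _ _ (al_pos m hm) p q r

theorem lam_val (hm : 2 ≤ m) : ∑ x, ∑ y, zz false x y * Fv ⟦pt (ψ m)⟧ (lR m hm x) (lR m hm y) =
    1 / 2 - 1 / m := by
  set ξ : Ln := ⟦pt (ψ m)⟧ with hξ
  have h2 := sin_2 m (by omega)
  have h4 := sin_4 m hm
  have h6 := sin_6 m hm
  have c := fun x y h h1 h2 => Fv_comm ξ (lR m hm x) (lR m hm y) (lam_inv m hm x) (lam_inv m hm y)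
    (lam_comm m hm x y h h1 h2)
  have f01 : Fv ξ (lR m hm 0) (lR m hm 1) = (1 / 2) * (1 - 1 / m) := Fv_ST m (by omega)
  have f10 : Fv ξ (lR m hm 1) (lR m hm 0) = - ((1 / 2) * (1 - 1 / m)) := Fv_TS m (by omega)
  have f03 : Fv ξ (lR m hm 0) (lR m hm 3) = 0 :=
    Fv_fix2 ξ _ _ (lam_inv m hm 0) (lam_inv m hm 3) (SA_comm m hm) (lA_xi m hm)
  have f30 : Fv ξ (lR m hm 3) (lR m hm 0) = 0 :=
    Fv_fix1 ξ _ _ (lam_inv m hm 3) (lam_inv m hm 0) (SA_comm m hm).symm (lA_xi m hm)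
  have f23 : Fv ξ (lR m hm 2) (lR m hm 3) = 0 :=
    Fv_fix2 ξ _ _ (lam_inv m hm 2) (lam_inv m hm 3) (AB_comm m hm).symm (lA_xi m hm)
  have f32 : Fv ξ (lR m hm 3) (lR m hm 2) = 0 :=
    Fv_fix1 ξ _ _ (lam_inv m hm 3) (lam_inv m hm 2) (AB_comm m hm) (lA_xi m hm)
  have e1 : lR m hm 1 ξ = ⟦pt (4 * ψ m - ψ m)⟧ := lT_pt m _
  have e2 : lR m hm 2 ξ = ⟦pt (-ψ m)⟧ := lB_xi m hm
  have e12 : lR m hm 1 (lR m hm 2 ξ) = ⟦pt (4 * ψ m - -ψ m)⟧ := by
    rw [e2]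
    exact lT_pt m _
  have e21 : lR m hm 2 (lR m hm 1 ξ) = ⟦pt (4 * ψ m - -ψ m)⟧ := by
    rw [← e12]
    have := (TB_comm m hm).symm
    exact Equiv.Perm.ext_iff.1 this ξ
  have f12 : Fv ξ (lR m hm 1) (lR m hm 2) = - (1 / 4) := by
    rw [c 1 2 (by decide) (by decide) (by decide), e12, e1, e2, hξ, orr_pt, orr_pt]
    have g1 : 4 * ψ m - ψ m - ψ m = 2 * ψ m := by ring
    have g2 : -ψ m - (4 * ψ m - ψ m) = -(4 * ψ m) := by ring
    have g3 : ψ m - -ψ m = 2 * ψ m := by ring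
    have g4 : 4 * ψ m - -ψ m - (4 * ψ m - ψ m) = 2 * ψ m := by ring
    have g5 : ψ m - (4 * ψ m - -ψ m) = -(4 * ψ m) := by ring
    rw [g1, g2, g3, g4, g5, sin_neg, sg_neg, sg_neg]
    · norm_num
    · nlinarith [mul_pos h2 (mul_pos h2 h4)]
    · nlinarith [mul_pos h2 (mul_pos h2 h4)]
  have f21 : Fv ξ (lR m hm 2) (lR m hm 1) = 1 / 4 := by
    rw [c 2 1 (by decide) (by decide) (by decide), e21, e1, e2, hξ, orr_pt, orr_pt]
    have g1 : -ψ m - ψ m = -(2 * ψ m) := by ring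
    have g2 : 4 * ψ m - ψ m - -ψ m = 4 * ψ m := by ring
    have g3 : ψ m - (4 * ψ m - ψ m) = -(2 * ψ m) := by ring
    have g4 : 4 * ψ m - -ψ m - -ψ m = 6 * ψ m := by ring
    have g5 : ψ m - (4 * ψ m - -ψ m) = -(4 * ψ m) := by ring
    rw [g1, g2, g3, g4, g5, sin_neg, sin_neg, sg_pos, sg_pos]
    · norm_num
    · nlinarith [mul_pos h2 (mul_pos h6 h4)]
    · nlinarith [mul_pos h2 (mul_pos h2 h4)]
  simp only [Fin.sum_univ_five, zz]
  simp only [show (nx false 0) = 1 from rfl, show (nx false 1) = 2 from rfl,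
    show (nx false 2) = 3 from rfl, show (nx false 3) = 0 from rfl, show (nx false 4) = 4 from rfl]
  simp [f01, f10, f12, f21, f23, f32, f30, f03]
  ring

/-- the Lambert quadrilateral with the angle `π / m` -/
noncomputable def lamb (hm : 2 ≤ m) : Pg false m (1 / 2 - 1 / m) where
  R := lR m hm
  ξ := ⟦pt (ψ m)⟧
  inv := lam_inv m hm
  rev := lam_rev m hm
  comm := lam_comm m hm
  rot := ST_rot m (by omega)
  val := lam_val m hm

end

end Pool.Agent.J4.H27.EC
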