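import Pool.Agent.J4.H27.EC.Dual
import Pool.Agent.J4.H27.EC.Lam

/-!
Coxeter systems: maps to joins of polygons.
-/

set_option autoImplicit false

open scoped Classical

namespace Pool.Agent.J4.H27.EC

open Equiv (Perm)
open Pool.Agent.Q134.SV

/-- the graph of the finite labels of a Coxeter matrix -/
def finG {S : Type} (M : CoxeterMatrix S) : SimpleGraph S where
  Adj x y := x ≠ y ∧ M x y ≠ 0
  symm := ⟨by
    rintro x y ⟨h, h'⟩
    exact ⟨h.symm, by rw [M.symmetric]; exact h'⟩⟩
  loopless := ⟨by
    rintro x ⟨h, -⟩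
    exact h rfl⟩

/-- the orientation character of a Coxeter group: `-1` at the generators -/
noncomputable def sgn {S W : Type} [Group W] {M : CoxeterMatrix S} (cs : CoxeterSystem M W) :
    W →* ℤˣ := cs.lift ⟨fun _ => -1, fun _ _ => by simp⟩

/-- `a` vanishes at all tuples which are not spherical (do not generate a finite subgroup) -/
def Sph {S W : Type} [Group W] {M : CoxeterMatrix S} (cs : CoxeterSystem M W) {n : ℕ}
    (a : (Fin n → S) → ℝ) : Prop :=
  ∀ v, a v ≠ 0 → Finite (Subgroup.closure (cs.simple '' Set.range v))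

/-- the area of the polygon, divided by `π`: the right-angled pentagon (`m = 2`), or the Lambert
quadrilateral with the angle `π / m` (`m ≥ 3`) -/
noncomputable def kap (m : ℕ) : ℝ := if m = 2 then 1 / 2 else 1 / 2 - 1 / m

theorem kap_pos {m : ℕ} (hm : 2 ≤ m) : 0 < kap m := by
  unfold kap
  split_ifs with h
  · norm_num
  · have h3 : (3 : ℝ) ≤ m := by exact_mod_cast (by omega : 3 ≤ m)
    have : 1 / (m : ℝ) ≤ 1 / 3 := one_div_le_one_div_of_le (by norm_num) h3
    linarith

theorem kap_ge {m : ℕ} (h : m = 2 ∨ 4 ≤ m) : 1 / 4 ≤ kap m := by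
  unfold kap
  split_ifs with h'
  · norm_num
  · have h3 : (4 : ℝ) ≤ m := by exact_mod_cast (by omega : 4 ≤ m)
    have : 1 / (m : ℝ) ≤ 1 / 4 := one_div_le_one_div_of_le (by norm_num) h3
    linarith

theorem exists_Pg (m : ℕ) (hm : 2 ≤ m) : Nonempty (Pg (decide (m = 2)) m (kap m)) := by
  by_cases h : m = 2
  · subst h
    have e : kap 2 = 1 / 2 := if_pos rfl
    rw [e]
    exact ⟨pent⟩
  · have e : kap m = 1 / 2 - 1 / m := if_neg h
    have e2 : decide (m = 2) = false := decide_eq_false h
    rw [e, e2]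
    exact ⟨lamb m hm⟩

/-- The join of `k` polygons with labels: the vertices are the pairs `(i, j)`, `i < k`, `j < 5`.
For `m i = 2` the polygon `i` is the pentagon `0, 1, 2, 3, 4`, all whose edges have the label two. For
`m i ≥ 3` it is the quadrilateral `0, 1, 2, 3`, the edge `0, 1` has the label `m i` and the other edges
have the label two. `f` maps vertices with a finite label to equal or adjacent vertices, whose label
divides the given label (two vertices of different polygons are adjacent and have the label two). -/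
def PMap {k : ℕ} {S : Type} (M : CoxeterMatrix S) (m : Fin k → ℕ) (f : S → Fin k × Fin 5) : Prop :=
  ∀ x y, x ≠ y → M x y ≠ 0 → f x = f y ∨ ((f x).1 ≠ (f y).1 ∧ 2 ∣ M x y) ∨
    ((f x).1 = (f y).1 ∧ pa (decide (m (f x).1 = 2)) (f x).2 (f y).2 ∧
      (if ((f x).2 = 0 ∧ (f y).2 = 1) ∨ ((f x).2 = 1 ∧ (f y).2 = 0) then m (f x).1 else 2) ∣ M x y)

section

variable {k : ℕ} {b : Fin k → Bool} {m : Fin k → ℕ} {κ : Fin k → ℝ}
  (Q : ∀ i, Pg (b i) (m i) (κ i))

theorem γ0_sq (p : Fin k × Fin 5) : γ0 Q p * γ0 Q p = 1 := by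
  unfold γ0
  rw [← Pi.mulSingle_mul, (Q p.1).inv, Pi.mulSingle_one]

theorem even_pow {Γ : Type} [Group Γ] {A B : Γ} (hA : A * A = 1) (hB : B * B = 1)
    (hAB : A * B = B * A) {n : ℕ} (hn : 2 ∣ n) : (A * B) ^ n = 1 := by
  obtain ⟨l, rfl⟩ := hn
  have h : (A * B) ^ 2 = 1 := by
    rw [pow_two]
    have : A * B * (A * B) = A * (B * A) * B := by group
    rw [this, ← hAB, ← mul_assoc, hA, one_mul, hB]
  rw [pow_mul, h, one_pow]

theorem liftable {S : Type} (M : CoxeterMatrix S) (m : Fin k → ℕ)
    (Q : ∀ i, Pg (decide (m i = 2)) (m i) (kap (m i))) (f : S → Fin k × Fin 5) (hf : PMap M m f) :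
    M.IsLiftable fun x => γ0 Q (f x) := by
  intro x y
  change (γ0 Q (f x) * γ0 Q (f y)) ^ M x y = 1
  by_cases hxy : x = y
  · subst hxy
    rw [M.diagonal, pow_one, γ0_sq]
  by_cases h0 : M x y = 0
  · rw [h0, pow_zero]
  have hfxy := hf x y hxy h0
  generalize f x = p' at hfxy ⊢
  generalize f y = q' at hfxy ⊢
  rcases hfxy with h | ⟨h, h'⟩ | ⟨h, hp, h'⟩
  · rw [h, γ0_sq, one_pow]
  · refine even_pow (γ0_sq Q _) (γ0_sq Q _) ?_ h'
    unfold γ0
    exact Pi.mulSingle_commute h _ _
  · obtain ⟨i, p⟩ := p'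
    obtain ⟨i', q⟩ := q'
    simp only at h hp h'
    subst h
    unfold γ0
    simp only
    rw [← Pi.mulSingle_mul, ← Pi.mulSingle_pow]
    have h1 : ((Q i).R p * (Q i).R q) ^ M x y = 1 := by
      split_ifs at h' with hs
      · obtain ⟨l, hl⟩ := h'
        rw [hl, pow_mul]
        have hrot := (Q i).rot
        rcases hs with ⟨rfl, rfl⟩ | ⟨rfl, rfl⟩
        · rw [hrot, one_pow]
        · have e : (Q i).R 1 * (Q i).R 0 = ((Q i).R 0 * (Q i).R 1)⁻¹ := by
            have h1 : ((Q i).R 0)⁻¹ = (Q i).R 0 := inv_eq_of_mul_eq_one_left ((Q i).inv 0)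
            have h2 : ((Q i).R 1)⁻¹ = (Q i).R 1 := inv_eq_of_mul_eq_one_left ((Q i).inv 1)
            rw [mul_inv_rev, h1, h2]
          rw [e, inv_pow, hrot, inv_one, one_pow]
      · push Not at hs
        exact even_pow ((Q i).inv _) ((Q i).inv _)
          ((Q i).comm _ _ hp (fun e => hs.1 e.1 e.2) (fun e => hs.2 e.1 e.2)) h'
    rw [h1, Pi.mulSingle_one]

end

/-- lower bound by a map to a join of polygons -/
theorem partA {k : ℕ} {S W : Type} [Fintype S] [Group W] {M : CoxeterMatrix S}
    (cs : CoxeterSystem M W) (m : Fin k → ℕ) (hm : ∀ i, 2 ≤ m i) (f : S → Fin k × Fin 5)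
    (hf : PMap M m f) {a : (Fin (2 * k) → S) → ℝ} (ha : IsCyc (2 * k) (finG M) a)
    (hs : Sph cs a) {H : Subgroup W} (hH : H.index ≠ 0) (hε : H ≤ (sgn cs).ker) :
    (H.index : ℝ) * (|push f a (ue fun _ => (0, 1))| * ∏ i, kap (m i)) ≤
      svol (sgn cs) cs.simple (2 * k) a H := by
  let Q : ∀ i, Pg (decide (m i = 2)) (m i) (kap (m i)) := fun i =>
    Classical.choice (exists_Pg (m i) (hm i))
  have hl := liftable M m Q f hf
  have hp : 0 ≤ ∏ i, kap (m i) := Finset.prod_nonneg fun i _ => (kap_pos (hm i)).le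
  rw [← abs_of_nonneg hp, ← abs_mul]
  refine main_join Q cs.subgroup_closure_range_simple (fun x => ?_) ha ?_ f ?_
    (cs.lift ⟨_, hl⟩) (fun x => cs.lift_apply_simple hl x) hH hε
  · exact cs.lift_apply_simple _ x
  · intro v hv j
    have := hs v hv
    have hle : C cs.simple v j ≤ Subgroup.closure (cs.simple '' Set.range v) := by
      apply Subgroup.closure_mono
      apply Set.image_mono
      rintro _ ⟨l, -, rfl⟩
      exact ⟨l, rfl⟩
    exact Finite.of_injective _ (Subgroup.inclusion_injective hle)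
  · rintro x y ⟨hxy, h0⟩
    rcases hf x y hxy h0 with h | ⟨h, h'⟩ | ⟨h, hp, h'⟩
    · exact Or.inl h
    · exact Or.inr (Or.inl h)
    · exact Or.inr (Or.inr ⟨h, hp⟩)

/-- the sum over the simplices with vertices in a set: (E) -/
theorem partE {k : ℕ} {S W : Type} [Fintype S] [Group W] {M : CoxeterMatrix S}
    (cs : CoxeterSystem M W) (m : Fin k → ℕ) (hm : ∀ i, 3 ≤ m i) (col : S → ℕ)
    (hcol : ∀ x, col x < 2 * k) (h1 : ∀ x y, x ≠ y → M x y ≠ 0 → col x ≠ col y ∧ 2 ∣ M x y)
    (h2 : ∀ (i : Fin k) x y, col x = 2 * i → col y = 2 * i + 1 → m i ∣ M x y) (A : Set S)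
    {a : (Fin (2 * k) → S) → ℝ} (ha : IsCyc (2 * k) (finG M) a)
    (hs : Sph cs a) {H : Subgroup W} (hH : H.index ≠ 0) (hε : H ≤ (sgn cs).ker) :
    (H.index : ℝ) * (|∑ v : Fin (2 * k) → S, if ∀ j, v j ∈ A ∧ col (v j) = j then a v else 0| *
      ∏ i, kap (m i)) ≤ svol (sgn cs) cs.simple (2 * k) a H := by
  let f : S → Fin k × Fin 5 := fun x => (⟨col x / 2, by have := hcol x; omega⟩,
    if x ∈ A then (if col x % 2 = 0 then 0 else 1) else (if col x % 2 = 0 then 2 else 3))
  have hf1 : ∀ x, ((f x).1 : ℕ) = col x / 2 := fun _ => rfl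
  have hf2 : ∀ x, (f x).2 = if x ∈ A then (if col x % 2 = 0 then 0 else 1) else
    (if col x % 2 = 0 then 2 else 3) := fun _ => rfl
  have hf : PMap M m f := by
    intro x y hxy h0
    obtain ⟨hc, he⟩ := h1 x y hxy h0
    by_cases h : (f x).1 = (f y).1
    · right; right
      refine ⟨h, ?_⟩
      have hm3 := hm (f x).1
      have e : decide (m (f x).1 = 2) = false := decide_eq_false (by omega)
      rw [e]
      have h' : col x / 2 = col y / 2 := by rw [← hf1, ← hf1, h]
      rcases Nat.mod_two_eq_zero_or_one (col x) with g | g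
      · have g' : col y % 2 = 1 := by omega
        have hd : m (f x).1 ∣ M x y := by
          apply h2
          · rw [hf1]; omega
          · rw [hf1]; omega
        have g'' : ¬ col y % 2 = 0 := by omega
        rw [hf2, hf2, if_pos g, if_pos g, if_neg g'', if_neg g'']
        constructor
        · split_ifs <;> decide
        · split_ifs with s1 s2 s3
          all_goals first
            | exact hd
            | exact he
      · have g' : col y % 2 = 0 := by omega
        have hd : m (f x).1 ∣ M x y := by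
          rw [M.symmetric]
          apply h2
          · rw [hf1]; omega
          · rw [hf1]; omega
        have g'' : ¬ col x % 2 = 0 := by omega
        rw [hf2, hf2, if_pos g', if_pos g', if_neg g'', if_neg g'']
        constructor
        · split_ifs <;> decide
        · split_ifs with s1 s2 s3
          all_goals first
            | exact hd
            | exact he
    · exact Or.inr (Or.inl ⟨h, he⟩)
  have hA := partA cs m (fun i => by have := hm i; omega) f hf ha hs hH hε
  have e : push f a (ue fun _ => (0, 1)) =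
      ∑ v : Fin (2 * k) → S, if ∀ j, v j ∈ A ∧ col (v j) = j then a v else 0 := by
    unfold push
    refine Finset.sum_congr rfl fun v _ => ?_
    have : f ∘ v = (ue fun _ => (0, 1)) ↔ ∀ j, v j ∈ A ∧ col (v j) = j := by
      constructor
      · intro h j
        have h3 := congrFun h j
        have h4 : ((f (v j)).1 : ℕ) = (j : ℕ) / 2 := by
          have := congrArg (fun p => (p.1 : ℕ)) h3
          exact this
        have h5 : (f (v j)).2 = if (j : ℕ) % 2 = 0 then 0 else 1 := congrArg Prod.snd h3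
        rw [hf1] at h4
        rw [hf2] at h5
        split_ifs at h5 with s1 s2 s3 s4 s5 s6 s7
        · exact ⟨s1, by omega⟩
        · exact absurd h5 (by decide)
        · exact absurd h5 (by decide)
        · exact ⟨s1, by omega⟩
        · exact absurd h5 (by decide)
        · exact absurd h5 (by decide)
        · exact absurd h5 (by decide)
        · exact absurd h5 (by decide)
      · intro h
        funext j
        obtain ⟨g1, g2⟩ := h j
        refine Prod.ext (Fin.ext ?_) ?_
        · change col (v j) / 2 = (j : ℕ) / 2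
          rw [g2]
        · change (f (v j)).2 = if (j : ℕ) % 2 = 0 then 0 else 1
          rw [hf2, if_pos g1, g2]
    simp only [this]
  rw [e] at hA
  exact hA

end Pool.Agent.J4.H27.EC
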