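import Pool.Agent.J4.H27.EC.Cox

/-!
Coxeter systems with coloured generators.
-/

set_option autoImplicit false

open scoped Classical

namespace Pool.Agent.J4.H27.EC

open Pool.Agent.Q134.SV

/-- the tuple `(s 0, t 0, s 1, t 1, …)` -/
def weave {k : ℕ} {S : Type} (s t : Fin k → S) (j : Fin (2 * k)) : S :=
  if (j : ℕ) % 2 = 0 then s ⟨j / 2, by omega⟩ else t ⟨j / 2, by omega⟩

section

variable {k : ℕ} {S : Type} {M : CoxeterMatrix S} (col : S → Fin k) (s t : Fin k → S)

/-- the class of a vertex -/
noncomputable def cl (M : CoxeterMatrix S) (s t : Fin k → S) (i : Fin k) (x : S) : Fin 5 :=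
  if x = s i then 0 else if x = t i then 1 else if M x (t i) ≠ 0 then 2 else
    if M (s i) (t i) = 2 ∧ M x (s i) ≠ 0 then 4 else 3

variable {s t}

theorem cl_s (i : Fin k) : cl M s t i (s i) = 0 := by
  unfold cl
  rw [if_pos rfl]

theorem cl_t (i : Fin k) (h : s i ≠ t i) : cl M s t i (t i) = 1 := by
  unfold cl
  rw [if_neg h.symm, if_pos rfl]

theorem cl_zero {i : Fin k} {x : S} (h : cl M s t i x = 0) : x = s i := by
  unfold cl at h
  by_contra hc
  rw [if_neg hc] at h
  split_ifs at h <;> exact absurd h (by decide)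

theorem cl_one {i : Fin k} {x : S} (h : cl M s t i x = 1) : x = t i := by
  unfold cl at h
  by_contra hc
  rw [if_neg hc] at h
  split_ifs at h <;> exact absurd h (by decide)

/-- Local version: the colour classes of the edges `s i`, `t i`. -/
theorem partB {W : Type} [Fintype S] [Group W] (cs : CoxeterSystem M W) (s t : Fin k → S)
    (hs : ∀ i, col (s i) = i) (ht : ∀ i, col (t i) = i) (hst : ∀ i, s i ≠ t i)
    (hl : ∀ i, M (s i) (t i) ≠ 0)
    (tri : ∀ i x, col x = i → x ≠ s i → x ≠ t i → M (s i) x = 0 ∨ M x (t i) = 0)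
    (sq : ∀ i x y, M (s i) (t i) = 2 → col x = i → col y = i → x ≠ t i → y ≠ s i → x ≠ y →
      M (s i) x ≠ 0 → M x y ≠ 0 → M y (t i) ≠ 0 → x = s i ∨ y = t i)
    (ev : ∀ x y, x ≠ y → M x y ≠ 0 → 2 ∣ M x y ∨ ∃ i, (x = s i ∧ y = t i) ∨ (x = t i ∧ y = s i))
    {a : (Fin (2 * k) → S) → ℝ} (ha : IsCyc (2 * k) (finG M) a)
    (hsph : Sph cs a) {H : Subgroup W} (hH : H.index ≠ 0) (hε : H ≤ (sgn cs).ker) :
    (H.index : ℝ) * (|a (weave s t)| * ∏ i, kap (M (s i) (t i))) ≤
      svol (sgn cs) cs.simple (2 * k) a H := by
  let m : Fin k → ℕ := fun i => M (s i) (t i)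
  have hm : ∀ i, 2 ≤ m i := by
    intro i
    have h1 := M.off_diagonal (s i) (t i) (hst i)
    have h0 := hl i
    change 2 ≤ M (s i) (t i)
    omega
  let f : S → Fin k × Fin 5 := fun x => (col x, cl M s t (col x) x)
  have hev : ∀ x y, x ≠ y → M x y ≠ 0 → ¬ (x = s (col x) ∧ y = t (col x)) →
      ¬ (x = t (col x) ∧ y = s (col x)) → 2 ∣ M x y := by
    intro x y hxy h0 h1 h2
    rcases ev x y hxy h0 with h | ⟨i, ⟨rfl, rfl⟩ | ⟨rfl, rfl⟩⟩
    · exact h
    · rw [hs] at h1
      exact absurd ⟨rfl, rfl⟩ h1
    · rw [ht] at h2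
      exact absurd ⟨rfl, rfl⟩ h2
  -- the values of the class
  have c2 : ∀ x i, x ≠ s i → x ≠ t i → M x (t i) ≠ 0 → cl M s t i x = 2 := by
    intro x i h1 h2 h3
    unfold cl
    rw [if_neg h1, if_neg h2, if_pos h3]
  have c4 : ∀ x i, x ≠ s i → x ≠ t i → M x (t i) = 0 → M (s i) (t i) = 2 → M x (s i) ≠ 0 →
      cl M s t i x = 4 := by
    intro x i h1 h2 h3 h4 h5
    unfold cl
    rw [if_neg h1, if_neg h2, if_neg (by simpa using h3), if_pos ⟨h4, h5⟩]
  have c3 : ∀ x i, x ≠ s i → x ≠ t i → M x (t i) = 0 → (M (s i) (t i) = 2 → M x (s i) = 0) →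
      cl M s t i x = 3 := by
    intro x i h1 h2 h3 h4
    unfold cl
    rw [if_neg h1, if_neg h2, if_neg (by simpa using h3), if_neg]
    rintro ⟨h5, h6⟩
    exact h6 (h4 h5)
  -- the edges of the polygon
  have key : ∀ i x y, col x = i → col y = i → x ≠ y → M x y ≠ 0 → cl M s t i x = cl M s t i y ∨
      pa (decide (m i = 2)) (cl M s t i x) (cl M s t i y) := by
    have hpab : ∀ (b : Bool) (x y : Fin 5), pa b x y → pa b y x := by decide
    -- the case `x = s i`
    have k0 : ∀ i y, col y = i → s i ≠ y → M (s i) y ≠ 0 →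
        pa (decide (m i = 2)) (cl M s t i (s i)) (cl M s t i y) := by
      intro i y hy hne h0
      rw [cl_s]
      by_cases h1 : y = t i
      · subst h1
        rw [cl_t i (hst i)]
        cases decide (m i = 2) <;> decide
      · have h2 : M y (t i) = 0 := (tri i y hy hne.symm h1).resolve_left h0
        by_cases h3 : m i = 2
        · rw [c4 y i hne.symm h1 h2 h3 (by rw [M.symmetric]; exact h0), decide_eq_true h3]
          decide
        · rw [c3 y i hne.symm h1 h2 (fun e => absurd e h3), decide_eq_false h3]
          decide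
    have k1 : ∀ i y, col y = i → t i ≠ y → M (t i) y ≠ 0 →
        pa (decide (m i = 2)) (cl M s t i (t i)) (cl M s t i y) := by
      intro i y hy hne h0
      rw [cl_t i (hst i)]
      by_cases h1 : y = s i
      · subst h1
        rw [cl_s]
        cases decide (m i = 2) <;> decide
      · rw [c2 y i h1 hne.symm (by rw [M.symmetric]; exact h0)]
        cases decide (m i = 2) <;> decide
    -- two vertices different from `s i`, `t i`, the first adjacent to `t i`
    have k2 : ∀ i x y, col x = i → col y = i → x ≠ y → M x y ≠ 0 → x ≠ s i → x ≠ t i → y ≠ s i →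
        y ≠ t i → M x (t i) ≠ 0 → cl M s t i x = cl M s t i y ∨
        pa (decide (m i = 2)) (cl M s t i x) (cl M s t i y) := by
      intro i x y hx hy hxy h0 h1 h2 h3 h4 h5
      rw [c2 x i h1 h2 h5]
      by_cases h6 : M y (t i) = 0
      · right
        rw [c3 y i h3 h4 h6]
        · cases decide (m i = 2) <;> decide
        · intro h7
          by_contra h8
          rcases sq i y x h7 hy hx h4 h1 hxy.symm (by rw [M.symmetric]; exact h8)
            (by rw [M.symmetric]; exact h0) h5 with h9 | h9
          · exact h3 h9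
          · exact h2 h9
      · left
        rw [c2 y i h3 h4 h6]
    intro i x y hx hy hxy h0
    by_cases hxs : x = s i
    · subst hxs
      exact Or.inr (k0 i y hy hxy h0)
    by_cases hxt : x = t i
    · subst hxt
      exact Or.inr (k1 i y hy hxy h0)
    by_cases hys : y = s i
    · subst hys
      exact Or.inr (hpab _ _ _ (k0 i x hx (Ne.symm hxy) (by rw [M.symmetric]; exact h0)))
    by_cases hyt : y = t i
    · subst hyt
      exact Or.inr (hpab _ _ _ (k1 i x hx (Ne.symm hxy) (by rw [M.symmetric]; exact h0)))
    by_cases h5 : M x (t i) = 0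
    · by_cases h6 : M y (t i) = 0
      · -- both are not adjacent to `t i`
        by_cases h7 : m i = 2
        · rw [decide_eq_true h7]
          by_cases h8 : M x (s i) = 0
          · rw [c3 x i hxs hxt h5 (fun _ => h8)]
            by_cases h9 : M y (s i) = 0
            · rw [c3 y i hys hyt h6 (fun _ => h9)]
              exact Or.inl rfl
            · rw [c4 y i hys hyt h6 h7 h9]
              exact Or.inr (by decide)
          · rw [c4 x i hxs hxt h5 h7 h8]
            by_cases h9 : M y (s i) = 0
            · rw [c3 y i hys hyt h6 (fun _ => h9)]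
              exact Or.inr (by decide)
            · rw [c4 y i hys hyt h6 h7 h9]
              exact Or.inl rfl
        · rw [c3 x i hxs hxt h5 (fun e => absurd e h7), c3 y i hys hyt h6 (fun e => absurd e h7)]
          exact Or.inl rfl
      · rcases k2 i y x hy hx (Ne.symm hxy) (by rw [M.symmetric]; exact h0) hys hyt hxs hxt h6
          with h | h
        · exact Or.inl h.symm
        · exact Or.inr (hpab _ _ _ h)
    · exact k2 i x y hx hy hxy h0 hxs hxt hys hyt h5
  have hf : PMap M m f := by
    intro x y hxy h0
    by_cases h : col x = col y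
    · rcases key (col x) x y rfl h.symm hxy h0 with h1 | h1
      · left
        change (col x, cl M s t (col x) x) = (col y, cl M s t (col y) y)
        rw [← h, h1]
      · right; right
        refine ⟨h, ?_, ?_⟩
        · change pa (decide (m (col x) = 2)) (cl M s t (col x) x) (cl M s t (col y) y)
          rw [← h]
          exact h1
        · change (if (cl M s t (col x) x = 0 ∧ cl M s t (col y) y = 1) ∨
            (cl M s t (col x) x = 1 ∧ cl M s t (col y) y = 0) then m (col x) else 2) ∣ M x y
          rw [← h]
          split_ifs with hc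
          · rcases hc with ⟨e1, e2⟩ | ⟨e1, e2⟩
            · have g1 := cl_zero e1
              have g2 := cl_one e2
              have : M x y = m (col x) := by
                change M x y = M (s (col x)) (t (col x))
                rw [← g1, ← g2]
              rw [this]
            · have g1 := cl_one e1
              have g2 := cl_zero e2
              have : M x y = m (col x) := by
                change M x y = M (s (col x)) (t (col x))
                rw [← g1, ← g2, M.symmetric]
              rw [this]
          · push Not at hc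
            refine hev x y hxy h0 ?_ ?_
            · rintro ⟨e1, e2⟩
              refine hc.1 ?_ ?_
              · conv_lhs => rw [e1]
                rw [hs]
                exact cl_s _
              · rw [e2]
                exact cl_t _ (hst _)
            · rintro ⟨e1, e2⟩
              refine hc.2 ?_ ?_
              · conv_lhs => rw [e1]
                rw [ht]
                exact cl_t _ (hst _)
              · rw [e2]
                exact cl_s _
    · right; left
      refine ⟨h, hev x y hxy h0 ?_ ?_⟩
      · rintro ⟨-, e2⟩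
        rw [e2, ht] at h
        exact h rfl
      · rintro ⟨-, e2⟩
        rw [e2, hs] at h
        exact h rfl
  have hA := partA cs m hm f hf ha hsph hH hε
  have e : push f a (ue fun _ => (0, 1)) = a (weave s t) := by
    unfold push
    rw [Finset.sum_eq_single (weave s t)]
    · rw [if_pos]
      funext j
      rcases idx j with ⟨i, rfl⟩ | ⟨i, rfl⟩
      · rw [ue_even, Function.comp_apply]
        have : weave s t ⟨2 * i, by omega⟩ = s i := by
          unfold weave
          simp only [Nat.mul_mod_right, if_true]
          congr 1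
          exact Fin.ext (by simp)
        rw [this]
        change (col (s i), cl M s t (col (s i)) (s i)) = _
        rw [hs, cl_s]
      · rw [ue_odd, Function.comp_apply]
        have : weave s t ⟨2 * i + 1, by omega⟩ = t i := by
          unfold weave
          rw [if_neg (by simp only; omega)]
          congr 1
          exact Fin.ext (by simp only; omega)
        rw [this]
        change (col (t i), cl M s t (col (t i)) (t i)) = _
        rw [ht, cl_t i (hst i)]
    · intro w _ hw
      rw [if_neg]
      intro h
      apply hw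
      funext j
      rcases idx j with ⟨i, rfl⟩ | ⟨i, rfl⟩
      · have h1 := congrFun h ⟨2 * i, by omega⟩
        rw [ue_even, Function.comp_apply] at h1
        have h2 : col (w ⟨2 * i, by omega⟩) = i := congrArg Prod.fst h1
        have h3 : cl M s t (col (w ⟨2 * i, by omega⟩)) (w ⟨2 * i, by omega⟩) = 0 :=
          congrArg Prod.snd h1
        rw [h2] at h3
        rw [cl_zero h3]
        unfold weave
        simp only [Nat.mul_mod_right, if_true]
        congr 1
        exact Fin.ext (by simp)
      · have h1 := congrFun h ⟨2 * i + 1, by omega⟩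
        rw [ue_odd, Function.comp_apply] at h1
        have h2 : col (w ⟨2 * i + 1, by omega⟩) = i := congrArg Prod.fst h1
        have h3 : cl M s t (col (w ⟨2 * i + 1, by omega⟩)) (w ⟨2 * i + 1, by omega⟩) = 1 :=
          congrArg Prod.snd h1
        rw [h2] at h3
        rw [cl_one h3]
        unfold weave
        rw [if_neg (by simp only; omega)]
        congr 1
        exact Fin.ext (by simp only; omega)
    · intro h
      exact absurd (Finset.mem_univ _) h
  rw [e] at hA
  exact hA

end

theorem alt_perm {S : Type} {n : ℕ} (a : (Fin n → S) → ℝ)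
    (ha : ∀ (v : Fin n → S) (i j : Fin n), i ≠ j → a (v ∘ Equiv.swap i j) = - a v)
    (σ : Equiv.Perm (Fin n)) : ∀ v : Fin n → S,
      a (v ∘ σ) = ((Equiv.Perm.sign σ : ℤ) : ℝ) * a v := by
  induction σ using Equiv.Perm.swap_induction_on with
  | one => intro v; simp
  | swap_mul f x y hxy ih =>
    intro v
    have h : v ∘ (Equiv.swap x y * f : Equiv.Perm (Fin n)) = (v ∘ Equiv.swap x y) ∘ f := rfl
    rw [h, ih, ha v x y hxy, map_mul, Equiv.Perm.sign_swap hxy]
    simp

/-- Even Coxeter groups whose generators are coloured such that there are no monochromatic triangles,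
and no monochromatic edges of label two in monochromatic cycles of length four. -/
theorem partC {k : ℕ} {S W : Type} [Fintype S] [Group W] {M : CoxeterMatrix S}
    (cs : CoxeterSystem M W) (col : S → Fin k)
    (ev : ∀ x y, x ≠ y → M x y ≠ 0 → 2 ∣ M x y)
    (tri : ∀ x y z, col x = col y → col y = col z → x ≠ y → y ≠ z → x ≠ z →
      M x y ≠ 0 → M y z ≠ 0 → M x z = 0)
    (sq : ∀ s t x y, M s t = 2 → col t = col s → col x = col s → col y = col s →
      x ≠ t → y ≠ s → x ≠ y → M s x ≠ 0 → M x y ≠ 0 → M y t ≠ 0 → x = s ∨ y = t)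
    {a : (Fin (2 * k) → S) → ℝ} (ha : IsCyc (2 * k) (finG M) a)
    (hsph : Sph cs a) {H : Subgroup W} (hH : H.index ≠ 0) (hε : H ≤ (sgn cs).ker)
    (v : Fin (2 * k) → S) :
    (H.index : ℝ) * |a v| ≤ 4 ^ k * svol (sgn cs) cs.simple (2 * k) a H := by
  by_cases hv : a v = 0
  · rw [hv, abs_zero, mul_zero]
    exact mul_nonneg (by positivity) svol_nonneg
  have hadj := ha.supp v hv
  have hinj : Function.Injective v := by
    intro i j h
    by_contra hc
    exact (hadj i j hc).1 h
  -- at most two of each colour
  let T : Fin k → Finset (Fin (2 * k)) := fun i => Finset.univ.filter fun j => col (v j) = i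
  have hT2 : ∀ i, (T i).card ≤ 2 := by
    intro i
    by_contra hc
    push Not at hc
    obtain ⟨x, y, z, hx, hy, hz, hxy, hxz, hyz⟩ := Finset.two_lt_card_iff.1 hc
    have ex : col (v x) = i := (Finset.mem_filter.1 hx).2
    have ey : col (v y) = i := (Finset.mem_filter.1 hy).2
    have ez : col (v z) = i := (Finset.mem_filter.1 hz).2
    have h1 := tri (v x) (v y) (v z) (ex.trans ey.symm) (ey.trans ez.symm) (hinj.ne hxy)
      (hinj.ne hyz) (hinj.ne hxz) (hadj x y hxy).2 (hadj y z hyz).2
    exact (hadj x z hxz).2 h1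
  have hsum : ∑ i, (T i).card = 2 * k := by
    have := Finset.card_eq_sum_card_fiberwise (s := (Finset.univ : Finset (Fin (2 * k))))
      (t := (Finset.univ : Finset (Fin k))) (f := fun j => col (v j)) (by
        intro x _
        exact Finset.mem_coe.2 (Finset.mem_univ _))
    rw [Finset.card_univ, Fintype.card_fin] at this
    exact this.symm
  have hT : ∀ i, (T i).card = 2 := by
    intro i
    by_contra hc
    have h1 : ∑ i, (T i).card < ∑ _i : Fin k, 2 :=
      Finset.sum_lt_sum (fun j _ => hT2 j) ⟨i, Finset.mem_univ _, lt_of_le_of_ne (hT2 i) hc⟩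
    rw [hsum, Finset.sum_const, Finset.card_univ, Fintype.card_fin, smul_eq_mul] at h1
    omega
  choose p q hpq using fun i => Finset.card_eq_two.1 (hT i)
  have hp : ∀ i, col (v (p i)) = i := by
    intro i
    have : p i ∈ T i := by
      rw [(hpq i).2]
      simp
    exact (Finset.mem_filter.1 this).2
  have hq : ∀ i, col (v (q i)) = i := by
    intro i
    have : q i ∈ T i := by
      rw [(hpq i).2]
      simp
    exact (Finset.mem_filter.1 this).2
  have hinj2 : Function.Injective (weave p q) := by
    intro j j' h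
    rcases idx j with ⟨i, rfl⟩ | ⟨i, rfl⟩ <;> rcases idx j' with ⟨i', rfl⟩ | ⟨i', rfl⟩
    all_goals
      have w0 : ∀ i : Fin k, weave p q ⟨2 * i, by omega⟩ = p i := by
        intro i
        unfold weave
        simp only [Nat.mul_mod_right, if_true]
        congr 1
        exact Fin.ext (by simp)
      have w1 : ∀ i : Fin k, weave p q ⟨2 * i + 1, by omega⟩ = q i := by
        intro i
        unfold weave
        rw [if_neg (by simp only; omega)]
        congr 1
        exact Fin.ext (by simp only; omega)
    · rw [w0, w0] at h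
      have := hp i
      rw [h, hp] at this
      subst this
      rfl
    · rw [w0, w1] at h
      have := hp i
      rw [h, hq] at this
      subst this
      exact absurd h (hpq _).1
    · rw [w1, w0] at h
      have := hq i
      rw [h, hp] at this
      subst this
      exact absurd h.symm (hpq _).1
    · rw [w1, w1] at h
      have := hq i
      rw [h, hq] at this
      subst this
      rfl
  let σ : Equiv.Perm (Fin (2 * k)) := Equiv.ofBijective _ ((Finite.injective_iff_bijective).1 hinj2)
  have hσ : v ∘ σ = weave (v ∘ p) (v ∘ q) := by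
    funext j
    change v (weave p q j) = _
    unfold weave
    split_ifs <;> rfl
  have habs : |a (weave (v ∘ p) (v ∘ q))| = |a v| := by
    rw [← hσ, alt_perm a ha.alt σ v, abs_mul]
    rcases Int.units_eq_one_or (Equiv.Perm.sign σ) with h | h <;> rw [h] <;> simp
  have hne : ∀ i, v (p i) ≠ v (q i) := fun i => hinj.ne (hpq i).1
  have hB := partB (M := M) col cs (v ∘ p) (v ∘ q) hp hq hne
    (fun i => (hadj _ _ (hpq i).1).2) (by
      intro i x hx h1 h2
      by_contra hc
      push Not at hc
      have := tri (v (p i)) x (v (q i)) ((hp i).trans hx.symm) (hx.trans (hq i).symm) h1.symm h2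
        (hne i) hc.1 hc.2
      exact (hadj _ _ (hpq i).1).2 this) (by
      intro i x y h0 hx hy h1 h2 h3 h4 h5 h6
      exact sq (v (p i)) (v (q i)) x y h0 ((hq i).trans (hp i).symm) (hx.trans (hp i).symm)
        (hy.trans (hp i).symm) h1 h2 h3 h4 h5 h6) (fun x y h1 h2 => Or.inl (ev x y h1 h2)) ha hsph
    hH hε
  rw [habs] at hB
  have hk : (1 / 4 : ℝ) ^ k ≤ ∏ i, kap (M ((v ∘ p) i) ((v ∘ q) i)) := by
    calc (1 / 4 : ℝ) ^ k = ∏ _i : Fin k, (1 / 4 : ℝ) := by simp
      _ ≤ _ := by
        refine Finset.prod_le_prod (fun _ _ => by norm_num) fun i _ => kap_ge ?_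
        have h0 : M (v (p i)) (v (q i)) ≠ 0 := (hadj _ _ (hpq i).1).2
        obtain ⟨l, hl⟩ := ev _ _ (hne i) h0
        change M (v (p i)) (v (q i)) = 2 ∨ 4 ≤ M (v (p i)) (v (q i))
        omega
  have h1 : (H.index : ℝ) * (|a v| * (1 / 4 : ℝ) ^ k) ≤ svol (sgn cs) cs.simple (2 * k) a H :=
    le_trans (mul_le_mul_of_nonneg_left (mul_le_mul_of_nonneg_left hk (abs_nonneg _))
      (Nat.cast_nonneg _)) hB
  have h2 : (4 : ℝ) ^ k * (1 / 4 : ℝ) ^ k = 1 := by
    rw [← mul_pow]
    norm_num
  calc (H.index : ℝ) * |a v| = 4 ^ k * ((H.index : ℝ) * (|a v| * (1 / 4 : ℝ) ^ k)) := by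
        linear_combination (-(H.index : ℝ) * |a v|) * h2
    _ ≤ _ := mul_le_mul_of_nonneg_left h1 (by positivity)

/-- finiteness of the groups of the simplices -/
theorem sph_of {k : ℕ} {S W : Type} [Group W] {M : CoxeterMatrix S}
    (cs : CoxeterSystem M W) (col : S → ℕ) (hcol : ∀ x, col x < 2 * k)
    (h1 : ∀ x y, x ≠ y → M x y ≠ 0 → col x ≠ col y ∧ (col x / 2 ≠ col y / 2 → M x y = 2))
    {n : ℕ} (v : Fin n → S) (hv : ∀ i j, i ≠ j → (finG M).Adj (v i) (v j)) :
    Finite (Subgroup.closure (cs.simple '' Set.range v)) := by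
  let X : Fin k → Set S := fun i => {x | x ∈ Set.range v ∧ col x / 2 = i}
  let P : Fin k → Subgroup W := fun i => Subgroup.closure (cs.simple '' X i)
  have hadj : ∀ x ∈ Set.range v, ∀ y ∈ Set.range v, x ≠ y → M x y ≠ 0 := by
    rintro _ ⟨i, rfl⟩ _ ⟨j, rfl⟩ h
    exact (hv i j (fun e => h (by rw [e]))).2
  have hP : ∀ i, Finite (P i) := by
    intro i
    by_cases h : ∃ x ∈ X i, ∃ y ∈ X i, x ≠ y
    · obtain ⟨x, hx, y, hy, hxy⟩ := h
      have hX : X i = {x, y} := by
        apply Set.Subset.antisymm
        · intro z hz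
          by_contra hc
          simp only [Set.mem_insert_iff, Set.mem_singleton_iff, not_or] at hc
          have g1 := (h1 z x hc.1 (hadj z hz.1 x hx.1 hc.1)).1
          have g2 := (h1 z y hc.2 (hadj z hz.1 y hy.1 hc.2)).1
          have g3 := (h1 x y hxy (hadj x hx.1 y hy.1 hxy)).1
          have e1 := hx.2
          have e2 := hy.2
          have e3 := hz.2
          omega
        · rintro z (rfl | hz)
          · exact hx
          · rw [Set.mem_singleton_iff.1 hz]
            exact hy
      have h0 := hadj x hx.1 y hy.1 hxy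
      have := (mean_dih (cs.simple x) (cs.simple y) (cs.simple_mul_simple_self x)
        (cs.simple_mul_simple_self y) (M x y) (by omega) (cs.simple_mul_simple_pow x y)).1
      change Finite (Subgroup.closure (cs.simple '' X i))
      rw [hX, Set.image_pair]
      exact this
    · push Not at h
      rcases Set.eq_empty_or_nonempty (X i) with h2 | ⟨x, hx⟩
      · change Finite (Subgroup.closure (cs.simple '' X i))
        rw [h2, Set.image_empty, Subgroup.closure_empty]
        infer_instance
      · have h3 : X i = {x} := by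
          apply Set.Subset.antisymm
          · intro z hz
            exact Set.mem_singleton_iff.2 (h z hz x hx)
          · rintro z hz
            rw [Set.mem_singleton_iff.1 hz]
            exact hx
        change Finite (Subgroup.closure (cs.simple '' X i))
        rw [h3, Set.image_singleton]
        exact (mean_one_inv (cs.simple x) (cs.simple_mul_simple_self x)).1
  have hcomm : Pairwise fun i j : Fin k => ∀ x y : W, x ∈ P i → y ∈ P j → Commute x y := by
    intro i j hij x y hx hy
    have hg : ∀ x ∈ X i, ∀ y ∈ X j, Commute (cs.simple x) (cs.simple y) := by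
      intro x hx y hy
      have hne : x ≠ y := by
        rintro rfl
        apply hij
        apply Fin.ext
        rw [← hx.2, hy.2]
      have h0 := hadj x hx.1 y hy.1 hne
      have h2 := (h1 x y hne h0).2 (by
        rw [hx.2, hy.2]
        intro e
        exact hij (Fin.ext e))
      have h3 := cs.simple_mul_simple_pow x y
      rw [h2, pow_two] at h3
      have h4 := eq_inv_of_mul_eq_one_left h3
      rw [mul_inv_rev, cs.inv_simple, cs.inv_simple] at h4
      exact h4
    have h2 : P i ≤ Subgroup.centralizer (cs.simple '' X j) := by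
      rw [Subgroup.closure_le]
      rintro _ ⟨x, hx, rfl⟩
      rw [SetLike.mem_coe, Subgroup.mem_centralizer_iff]
      rintro _ ⟨y, hy, rfl⟩
      exact ((hg x hx y hy).eq).symm
    have h3 : P j ≤ Subgroup.centralizer (P i : Set W) := by
      rw [Subgroup.closure_le]
      rintro _ ⟨y, hy, rfl⟩
      rw [SetLike.mem_coe, Subgroup.mem_centralizer_iff]
      intro g hg'
      have := Subgroup.mem_centralizer_iff.1 (h2 hg') (cs.simple y) ⟨y, hy, rfl⟩
      exact this.symm
    exact (Subgroup.mem_centralizer_iff.1 (h3 hy) x hx)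
  have hle : Subgroup.closure (cs.simple '' Set.range v) ≤ ⨆ i, P i := by
    rw [Subgroup.closure_le]
    rintro _ ⟨x, hx, rfl⟩
    have hc := hcol x
    have : cs.simple x ∈ P ⟨col x / 2, by omega⟩ :=
      Subgroup.subset_closure ⟨x, ⟨hx, rfl⟩, rfl⟩
    exact (le_iSup P _) this
  have hfin : Finite ((⨆ i, P i : Subgroup W)) := by
    rw [← Subgroup.noncommPiCoprod_range (hcomm := hcomm)]
    exact Finite.of_surjective _ (Subgroup.noncommPiCoprod hcomm).rangeRestrict_surjective
  exact Finite.of_injective _ (Subgroup.inclusion_injective hle)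

/-- labelled balanced flag complexes -/
theorem partD {k : ℕ} {S W : Type} [Fintype S] [Group W] {M : CoxeterMatrix S}
    (cs : CoxeterSystem M W) (col : S → ℕ) (hcol : ∀ x, col x < 2 * k)
    (h1 : ∀ x y, x ≠ y → M x y ≠ 0 → col x ≠ col y ∧ 2 ∣ M x y ∧
      (col x / 2 ≠ col y / 2 → M x y = 2))
    (h2 : ∀ s t x y, M s t = 2 → col t / 2 = col s / 2 → col x / 2 = col s / 2 →
      col y / 2 = col s / 2 → x ≠ t → y ≠ s → x ≠ y → M s x ≠ 0 → M x y ≠ 0 → M y t ≠ 0 →
      x = s ∨ y = t)
    {a : (Fin (2 * k) → S) → ℝ} (ha : IsCyc (2 * k) (finG M) a)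
    {H : Subgroup W} (hH : H.index ≠ 0) (hε : H ≤ (sgn cs).ker)
    (v : Fin (2 * k) → S) :
    (H.index : ℝ) * |a v| ≤ 4 ^ k * svol (sgn cs) cs.simple (2 * k) a H := by
  refine partC cs (fun x => (⟨col x / 2, by have := hcol x; omega⟩ : Fin k))
    (fun x y h h' => (h1 x y h h').2.1) ?_ ?_ ha ?_ hH hε v
  · intro x y z hxy hyz h3 h4 h5 h6 h7
    by_contra h8
    have g1 := (h1 x y h3 h6).1
    have g2 := (h1 y z h4 h7).1
    have g3 := (h1 x z h5 h8).1
    have e1 : col x / 2 = col y / 2 := congrArg Fin.val hxy
    have e2 : col y / 2 = col z / 2 := congrArg Fin.val hyz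
    omega
  · intro s t x y h0 e1 e2 e3
    exact h2 s t x y h0 (congrArg Fin.val e1) (congrArg Fin.val e2) (congrArg Fin.val e3)
  · intro w hw
    exact sph_of cs col hcol (fun x y h h' => ⟨(h1 x y h h').1, (h1 x y h h').2.2⟩) w
      (ha.supp w hw)

end Pool.Agent.J4.H27.EC
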