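import Pool.Agent.J4.H27.EC.Dual

/-!
The fundamental chain is a cycle modulo `H`.
-/

set_option autoImplicit false

open scoped Classical

namespace Pool.Agent.J4.H27.EC

open Pool.Agent.Q134.SV Pool.Agent.N13.QC

variable {S Γ : Type} [Fintype S] [Group Γ]

omit [Fintype S] in
theorem ini_perm {n : ℕ} (v : Fin n → S) (σ : Equiv.Perm (Fin n)) (m : ℕ)
    (h : ∀ j : Fin n, (σ j : ℕ) < m ↔ (j : ℕ) < m) : ini (v ∘ σ) m = ini v m := by
  ext x
  constructor
  · rintro ⟨j, hj, rfl⟩
    exact ⟨σ j, (h j).2 hj, rfl⟩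
  · rintro ⟨j, hj, rfl⟩
    refine ⟨σ.symm j, ?_, by simp⟩
    rw [← h]
    simpa using hj

theorem swap_lt {n : ℕ} (p : ℕ) (hp : p + 1 < n) (m : ℕ) (hne : m ≠ p + 1) (j : Fin n) :
    ((Equiv.swap (⟨p, by omega⟩ : Fin n) ⟨p + 1, hp⟩ j : Fin n) : ℕ) < m ↔ (j : ℕ) < m := by
  rcases eq_or_ne j ⟨p, by omega⟩ with rfl | h1
  · rw [Equiv.swap_apply_left]
    simp only
    omega
  · rcases eq_or_ne j ⟨p + 1, hp⟩ with rfl | h2
    · rw [Equiv.swap_apply_right]
      simp only
      omega
    · rw [Equiv.swap_apply_of_ne_of_ne h1 h2]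

/-- sums of functions which are invariant under a transposition -/
theorem sum_swap {n : ℕ} (a F : (Fin n → S) → ℝ) (i j : Fin n)
    (ha : ∀ (v : Fin n → S), a (v ∘ Equiv.swap i j) = - a v)
    (hF : ∀ v, F (v ∘ Equiv.swap i j) = F v) : ∑ v : Fin n → S, a v * F v = 0 := by
  have h1 : ∑ v : Fin n → S, a v * F v = ∑ v : Fin n → S, - (a v * F v) := by
    rw [← Equiv.sum_comp (Equiv.arrowCongr (Equiv.swap i j) (Equiv.refl S))]
    refine Finset.sum_congr rfl fun v _ => ?_
    have e1 : (Equiv.arrowCongr (Equiv.swap i j) (Equiv.refl S)) v = v ∘ Equiv.swap i j := by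
      funext l
      simp [Equiv.arrowCongr]
    rw [e1, ha v, hF v]
    ring
  rw [Finset.sum_neg_distrib] at h1
  linarith

theorem val_succAbove {n : ℕ} (j : Fin (n + 1)) (i : Fin n) :
    ((j.succAbove i : Fin (n + 1)) : ℕ) = if (i : ℕ) < j then (i : ℕ) else i + 1 := by
  split_ifs with h
  · rw [Fin.succAbove_of_castSucc_lt _ _ (by rw [Fin.lt_def]; simpa using h)]
    rfl
  · rw [Fin.succAbove_of_le_castSucc _ _ (by rw [Fin.le_def]; simpa using h)]
    rfl

theorem sum_fch_gen {ε : Γ →* ℤˣ} {γ : S → Γ} {n : ℕ} {a : (Fin n → S) → ℝ} {H : Subgroup Γ}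
    [Fintype (Quotient (QuotientGroup.rightRel H))]
    (hfin : ∀ v, a v ≠ 0 → ∀ j, Finite (C γ v j)) (c : (Fin (n + 1) → Γ) → ℝ) :
    ((fch ε γ n a H).sum fun g t => t * c g) =
      ∑ q : Quotient (QuotientGroup.rightRel H), ((ε q.out : ℤ) : ℝ) *
        ∑ v, a v * av c (fun i : Fin (n + 1) => C γ v i) (fun _ => q.out) := by
  have h1 : ((fch ε γ n a H).sum fun g t => t * c g) =
    Finsupp.linearCombination ℝ c (fch ε γ n a H) := rfl
  rw [h1, fch, finsum_eq_sum_of_fintype, map_sum]
  refine Finset.sum_congr rfl fun q _ => ?_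
  rw [map_sum, Finset.mul_sum]
  refine Finset.sum_congr rfl fun v _ => ?_
  by_cases hv : a v = 0
  · simp [hv]
  · have hf : ∀ i : Fin (n + 1), Finite (C γ v i) := fun i => hfin v hv i
    have : Fintype (∀ i : Fin (n + 1), C γ v i) := Fintype.ofFinite _
    rw [finsum_eq_sum_of_fintype, map_sum]
    simp only [Finsupp.linearCombination_single, smul_eq_mul]
    unfold av
    rw [mean_eq, Nat.card_eq_fintype_card, Finset.mul_sum, Finset.mul_sum, Finset.mul_sum]
    refine Finset.sum_congr rfl fun h _ => ?_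
    ring

theorem av_cobd' {n : ℕ} (b : (Fin n → Γ) → ℝ) (Q : Fin (n + 1) → Subgroup Γ) [∀ i, Finite (Q i)]
    (y : Fin (n + 1) → Γ) : av (cobd b) Q y =
    ∑ j : Fin (n + 1), (-1 : ℝ) ^ (j : ℕ) * av b (Q ∘ j.succAbove) (y ∘ j.succAbove) := by
  have h1 : av (cobd b) Q y = mean (∀ i, Q i) (fun h => ∑ j : Fin (n + 1), (-1 : ℝ) ^ (j : ℕ) *
      b (fun i => y (j.succAbove i) * (h (j.succAbove i) : Γ))) := rfl
  rw [h1, mean_sum]
  refine Finset.sum_congr rfl fun j _ => ?_
  rw [mean_mul]
  congr 1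
  exact mean_succAbove (X := fun i => Q i) j
    (fun h => b fun i => y (j.succAbove i) * (h i : Γ))

/-- The chain `fch ε γ n a H` is a cycle modulo `H`. -/
theorem fch_cycle {ε : Γ →* ℤˣ} {γ : S → Γ} (hεγ : ∀ x, ε (γ x) = -1) {m : ℕ}
    {G : SimpleGraph S} {a : (Fin (m + 1) → S) → ℝ} (ha : IsCyc (m + 1) G a) {H : Subgroup Γ}
    (hH : H.index ≠ 0) (hε : H ≤ ε.ker) (hfin : ∀ v, a v ≠ 0 → ∀ j, Finite (C γ v j))
    (b : (Fin (m + 1) → Γ) → ℝ) (hb : ∀ h ∈ H, ∀ g, b (fun i => h * g i) = b g) :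
    ((fch ε γ (m + 1) a H).sum fun g t => t * cobd b g) = 0 := by
  have hfi : H.FiniteIndex := ⟨hH⟩
  have hfin1 : Finite (Quotient (QuotientGroup.rightRel H)) :=
    Finite.of_equiv _ (QuotientGroup.quotientRightRelEquivQuotientLeftRel H).symm
  have hft : Fintype (Quotient (QuotientGroup.rightRel H)) := Fintype.ofFinite _
  rw [sum_fch_gen hfin]
  -- the faces
  let T : (Fin (m + 2)) → (Fin (m + 1) → S) → Γ → ℝ := fun j v q =>
    av b ((fun i : Fin (m + 2) => C γ v i) ∘ j.succAbove) (fun _ => q)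
  have h1 : ∀ q : Γ, ∑ v, a v * av (cobd b) (fun i : Fin (m + 2) => C γ v i) (fun _ => q) =
      ∑ j : Fin (m + 2), (-1 : ℝ) ^ (j : ℕ) * ∑ v, a v * T j v q := by
    intro q
    simp only [Finset.mul_sum]
    rw [Finset.sum_comm]
    refine Finset.sum_congr rfl fun v _ => ?_
    by_cases hv : a v = 0
    · simp [hv]
    · have hf : ∀ i : Fin (m + 2), Finite (C γ v i) := fun i => hfin v hv i
      rw [av_cobd' b, Finset.mul_sum]
      refine Finset.sum_congr rfl fun j _ => ?_
      change a v * ((-1 : ℝ) ^ (j : ℕ) * T j v q) = _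
      ring
  -- the faces in the interior
  have h2 : ∀ (q : Γ) (j : Fin (m + 2)), j ≠ 0 → ∑ v, a v * T j v q = 0 := by
    intro q j hj
    have hj0 : (j : ℕ) ≠ 0 := fun e => hj (Fin.ext e)
    have hj2 := j.2
    rcases Nat.lt_or_ge (j : ℕ) (m + 1) with h | h
    · obtain ⟨p, hp⟩ : ∃ p, (j : ℕ) = p + 1 := ⟨j - 1, by omega⟩
      refine sum_swap a (fun v => T j v q) ⟨p, by omega⟩ ⟨p + 1, by omega⟩
        (fun v => ha.alt v _ _ (by simp)) ?_
      intro v
      simp only [T]
      congr 1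
      funext i
      simp only [Function.comp_apply, val_succAbove]
      unfold C
      rw [ini_perm]
      intro l
      apply swap_lt
      split_ifs <;> omega
    · have e : (j : ℕ) = m + 1 := by omega
      have h3 := sum_push_eq (fun v => T j v q) a (Fin.last m) ?_ (fun v => ha.cyc v _)
      · rw [← h3]
        exact Finset.sum_congr rfl fun v _ => mul_comm _ _
      · intro v x
        simp only [T]
        congr 1
        funext i
        have hi := i.2
        simp only [Function.comp_apply, val_succAbove]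
        rw [if_pos (by omega)]
        unfold C
        congr 2
        ext z
        constructor
        · rintro ⟨l, hl, rfl⟩
          refine ⟨l, hl, ?_⟩
          rw [Function.update_of_ne]
          intro e
          rw [e, Fin.val_last] at hl
          omega
        · rintro ⟨l, hl, rfl⟩
          refine ⟨l, hl, ?_⟩
          rw [Function.update_of_ne]
          intro e
          rw [e, Fin.val_last] at hl
          omega
  have h3 : ∀ q : Γ, ∑ v, a v * av (cobd b) (fun i : Fin (m + 2) => C γ v i) (fun _ => q) =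
      ∑ v, a v * T 0 v q := by
    intro q
    rw [h1, Fin.sum_univ_succ]
    have h0 : ∑ j : Fin (m + 1), (-1 : ℝ) ^ ((j.succ : Fin (m + 2)) : ℕ) *
        ∑ v, a v * T j.succ v q = 0 :=
      Finset.sum_eq_zero fun j _ => by rw [h2 q j.succ (Fin.succ_ne_zero j), mul_zero]
    rw [h0]
    simp
  simp only [h3]
  simp only [Finset.mul_sum]
  rw [Finset.sum_comm]
  refine Finset.sum_eq_zero fun v _ => ?_
  -- the first face
  have hT : ∀ q : Γ, T 0 v (q * γ (v 0)) = T 0 v q := by
    intro q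
    simp only [T]
    refine av_coset b _ (fun _ => q) (fun _ => q * γ (v 0)) ?_
    intro i
    simp only [Function.comp_apply, Fin.succAbove_zero, Fin.val_succ, inv_mul_cancel_left]
    exact Subgroup.subset_closure ⟨v 0, ⟨0, Nat.succ_pos _, rfl⟩, rfl⟩
  have hTH : ∀ h ∈ H, ∀ q : Γ, T 0 v (h * q) = T 0 v q := by
    intro h hh q
    simp only [T]
    unfold av
    refine mean_congr fun g => ?_
    simp only [mul_assoc]
    exact hb h hh _
  have hε1 : ∀ h ∈ H, ∀ q : Γ, ε (h * q) = ε q := by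
    intro h hh q
    rw [map_mul, MonoidHom.mem_ker.1 (hε hh), one_mul]
  let Ψ : Quotient (QuotientGroup.rightRel H) → ℝ := fun q => ((ε q.out : ℤ) : ℝ) * T 0 v q.out
  have hΨ : ∀ q : Γ, Ψ (Quotient.mk (QuotientGroup.rightRel H) q) = ((ε q : ℤ) : ℝ) * T 0 v q := by
    intro q
    have h4 : (QuotientGroup.rightRel H) (Quotient.out (Quotient.mk (QuotientGroup.rightRel H) q)) q :=
      Quotient.mk_out q
    rw [QuotientGroup.rightRel_apply] at h4
    have h5 := hTH _ h4 (Quotient.mk (QuotientGroup.rightRel H) q).out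
    have h6 := hε1 _ h4 (Quotient.mk (QuotientGroup.rightRel H) q).out
    rw [inv_mul_cancel_right] at h5 h6
    simp only [Ψ]
    rw [h5, h6]
  let R : Quotient (QuotientGroup.rightRel H) → Quotient (QuotientGroup.rightRel H) :=
    Quotient.map (fun q => q * γ (v 0)) (by
      intro x y hxy
      have : (QuotientGroup.rightRel H) x y := hxy
      rw [QuotientGroup.rightRel_apply] at this
      change (QuotientGroup.rightRel H) _ _
      rw [QuotientGroup.rightRel_apply]
      have e : y * γ (v 0) * (x * γ (v 0))⁻¹ = y * x⁻¹ := by group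
      rw [e]
      exact this)
  have hR : Function.Injective R := by
    intro x y
    refine Quotient.inductionOn₂ x y fun x y h => ?_
    have h4 : (QuotientGroup.rightRel H) (x * γ (v 0)) (y * γ (v 0)) := Quotient.exact h
    rw [QuotientGroup.rightRel_apply] at h4
    apply Quotient.sound
    change (QuotientGroup.rightRel H) _ _
    rw [QuotientGroup.rightRel_apply]
    have e : y * γ (v 0) * (x * γ (v 0))⁻¹ = y * x⁻¹ := by group
    rw [e] at h4
    exact h4
  have hRb : Function.Bijective R := (Finite.injective_iff_bijective).1 hR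
  have hneg : ∀ q, Ψ (R q) = - Ψ q := by
    intro q
    refine Quotient.inductionOn q fun q => ?_
    change Ψ (Quotient.mk (QuotientGroup.rightRel H) (q * γ (v 0))) = _
    rw [hΨ, hΨ, hT, map_mul, hεγ]
    simp
  have h7 : ∑ q, Ψ q = - ∑ q, Ψ q := by
    conv_lhs => rw [← Equiv.sum_comp (Equiv.ofBijective R hRb)]
    rw [← Finset.sum_neg_distrib]
    exact Finset.sum_congr rfl fun q _ => hneg q
  have h8 : ∑ q, Ψ q = 0 := by linarith
  calc ∑ q : Quotient (QuotientGroup.rightRel H), ((ε q.out : ℤ) : ℝ) * (a v * T 0 v q.out)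
      = a v * ∑ q, Ψ q := by
        rw [Finset.mul_sum]
        exact Finset.sum_congr rfl fun q _ => by simp only [Ψ]; ring
    _ = 0 := by rw [h8, mul_zero]

end Pool.Agent.J4.H27.EC
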