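import Pool.Agent.J4.H27.EC.Prod
import Pool.Agent.N13.QC.Tr

/-!
Fundamental cycles in terms of flags of finite subgroups, and lower bounds of the simplicial volume.
-/

set_option autoImplicit false

open scoped Classical

namespace Pool.Agent.J4.H27.EC

open Equiv (Perm)
open Pool.Agent.Q134.SV Pool.Agent.N13.QC

/-- Two real chains (of the simplices with vertices in `Γ`, modulo `H`) differ by a boundary: they
have the same value at all `H`-invariant cocycles. -/
def Homol {Γ : Type} [Group Γ] (n : ℕ) (H : Subgroup Γ) (z z' : (Fin (n + 1) → Γ) →₀ ℝ) : Prop :=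
  ∀ c : (Fin (n + 1) → Γ) → ℝ, (∀ h ∈ H, ∀ g, c (fun i => h * g i) = c g) →
    (∀ g : Fin (n + 2) → Γ, cobd c g = 0) →
    (z.sum fun g t => t * c g) = z'.sum fun g t => t * c g

/-- Let `Γ` be a group with generators `γ x`, `x ∈ S`, and orientation character `ε`, and `a` a function on
the `n`-tuples of elements of `S` (the coefficients of a cycle of a simplicial complex with the vertices `S`,
such that the elements `γ v_0, …, γ v_{n-1}` of a simplex `v` generate a finite group). The chain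
`∑_q ε(q) ∑_v a(v) (q P_0, q P_1, …, q P_n)`, where `q` runs through representatives of the cosets `H q`,
`P_i = C γ v i` is the group generated by `γ v_0, …, γ v_{i-1}`, and the simplex with the vertices
`q P_0, …, q P_n` is replaced by the mean of the simplices `(q h_0, …, q h_n)` with `h_i ∈ P_i`. -/
noncomputable def fch {S Γ : Type} [Fintype S] [Group Γ] (ε : Γ →* ℤˣ) (γ : S → Γ) (n : ℕ)
    (a : (Fin n → S) → ℝ) (H : Subgroup Γ) : (Fin (n + 1) → Γ) →₀ ℝ :=
  ∑ᶠ q : Quotient (QuotientGroup.rightRel H), ∑ v : Fin n → S,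
    ∑ᶠ h : (∀ i : Fin (n + 1), C γ v i), Finsupp.single (fun i => q.out * (h i : Γ))
      (((ε q.out : ℤ) : ℝ) * a v / Nat.card (∀ i : Fin (n + 1), C γ v i))

/-- The `ℓ¹`-seminorm of the class of `fch ε γ n a H` in the homology of `H`. -/
noncomputable def svol {S Γ : Type} [Fintype S] [Group Γ] (ε : Γ →* ℤˣ) (γ : S → Γ) (n : ℕ)
    (a : (Fin n → S) → ℝ) (H : Subgroup Γ) : ℝ :=
  sInf {r | ∃ z : (Fin (n + 1) → Γ) →₀ ℝ, Homol n H z (fch ε γ n a H) ∧
    r = z.sum fun _ t => |t|}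

section

variable {S Γ : Type} [Fintype S] [Group Γ] {ε : Γ →* ℤˣ} {γ : S → Γ} {n : ℕ}
  {a : (Fin n → S) → ℝ} {H : Subgroup Γ}

theorem eps_sq (w : Γ) : ((ε w : ℤ) : ℝ) * ((ε w : ℤ) : ℝ) = 1 := by
  rcases Int.units_eq_one_or (ε w) with h | h <;> rw [h] <;> simp

theorem sum_fch (hH : H.index ≠ 0) (hfin : ∀ v, a v ≠ 0 → ∀ j, Finite (C γ v j))
    (c : (Fin (n + 1) → Γ) → ℝ)
    (hc : ∀ w g, c (fun i => w * g i) = ((ε w : ℤ) : ℝ) * c g) :
    ((fch ε γ n a H).sum fun g t => t * c g) =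
      (H.index : ℝ) * ∑ v, a v * av c (fun i : Fin (n + 1) => C γ v i) 1 := by
  have hfi : H.FiniteIndex := ⟨hH⟩
  have hfin1 : Finite (Quotient (QuotientGroup.rightRel H)) :=
    Finite.of_equiv _ (QuotientGroup.quotientRightRelEquivQuotientLeftRel H).symm
  have hft : Fintype (Quotient (QuotientGroup.rightRel H)) := Fintype.ofFinite _
  have h1 : ((fch ε γ n a H).sum fun g t => t * c g) =
    Finsupp.linearCombination ℝ c (fch ε γ n a H) := rfl
  rw [h1, fch, finsum_eq_sum_of_fintype, map_sum]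
  have h2 : ∀ q : Quotient (QuotientGroup.rightRel H), Finsupp.linearCombination ℝ c
      (∑ v : Fin n → S, ∑ᶠ h : (∀ i : Fin (n + 1), C γ v i),
      Finsupp.single (fun i => q.out * (h i : Γ))
      (((ε q.out : ℤ) : ℝ) * a v / Nat.card (∀ i : Fin (n + 1), C γ v i))) =
      ∑ v, a v * av c (fun i : Fin (n + 1) => C γ v i) 1 := by
    intro q
    rw [map_sum]
    refine Finset.sum_congr rfl fun v _ => ?_
    by_cases hv : a v = 0
    · simp [hv]
    · have hf : ∀ i : Fin (n + 1), Finite (C γ v i) := fun i => hfin v hv i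
      have : Fintype (∀ i : Fin (n + 1), C γ v i) := Fintype.ofFinite _
      rw [finsum_eq_sum_of_fintype, map_sum]
      simp only [Finsupp.linearCombination_single, smul_eq_mul, hc]
      unfold av
      rw [mean_eq, Nat.card_eq_fintype_card, Finset.mul_sum, Finset.mul_sum]
      refine Finset.sum_congr rfl fun h _ => ?_
      have e := eps_sq (ε := ε) q.out
      have e2 : (fun i : Fin (n + 1) => (1 : Fin (n + 1) → Γ) i * (h i : Γ)) =
          fun i => (h i : Γ) := by
        funext i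
        simp
      rw [e2]
      calc _ = (((ε q.out : ℤ) : ℝ) * ((ε q.out : ℤ) : ℝ)) * a v /
            (Fintype.card (∀ i : Fin (n + 1), C γ v i)) * c (fun i => (h i : Γ)) := by ring
        _ = _ := by rw [e]; ring
  rw [Finset.sum_congr rfl fun q _ => h2 q, Finset.sum_const, Finset.card_univ, nsmul_eq_mul,
    T.card_quot]

theorem svol_nonneg : 0 ≤ svol ε γ n a H := by
  apply Real.sInf_nonneg
  rintro r ⟨z, -, rfl⟩
  exact Finset.sum_nonneg fun _ _ => abs_nonneg _

/-- duality -/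
theorem svol_lower (hH : H.index ≠ 0) (hε : H ≤ ε.ker)
    (hfin : ∀ v, a v ≠ 0 → ∀ j, Finite (C γ v j)) (c : (Fin (n + 1) → Γ) → ℝ)
    (hc : ∀ w g, c (fun i => w * g i) = ((ε w : ℤ) : ℝ) * c g)
    (hcoc : ∀ g : Fin (n + 2) → Γ, cobd c g = 0) (hb : ∀ g, |c g| ≤ 1) :
    (H.index : ℝ) * |∑ v, a v * av c (fun i : Fin (n + 1) => C γ v i) 1| ≤ svol ε γ n a H := by
  unfold svol
  apply le_csInf
  · exact ⟨_, fch ε γ n a H, fun _ _ _ => rfl, rfl⟩
  · rintro r ⟨z, hz, rfl⟩
    have h1 := hz c (fun h hh g => by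
      rw [hc, MonoidHom.mem_ker.1 (hε hh)]
      simp) hcoc
    rw [sum_fch hH hfin c hc] at h1
    have h2 := T.abs_sum_le c 1 hb z
    rw [h1, one_mul, abs_mul, abs_of_nonneg (Nat.cast_nonneg _)] at h2
    exact h2

end

theorem equivar {Γ S : Type} [Group Γ] (γ : S → Γ) (hgen : Subgroup.closure (Set.range γ) = ⊤)
    (ε : Γ →* ℤˣ) (hεγ : ∀ x, ε (γ x) = -1) {n : ℕ} (c : (Fin n → Γ) → ℝ)
    (hc : ∀ x g, c (fun i => γ x * g i) = - c g) (w : Γ) (g : Fin n → Γ) :
    c (fun i => w * g i) = ((ε w : ℤ) : ℝ) * c g := by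
  have hw : w ∈ Subgroup.closure (Set.range γ) := by rw [hgen]; trivial
  revert g
  refine Subgroup.closure_induction (p := fun w _ => ∀ g : Fin n → Γ, c (fun i => w * g i) =
    ((ε w : ℤ) : ℝ) * c g) ?_ ?_ ?_ ?_ hw
  · rintro _ ⟨x, rfl⟩ g
    rw [hc, hεγ]
    simp
  · intro g
    simp
  · intro x y _ _ hx hy g
    have : (fun i => x * y * g i) = fun i => x * (fun i => y * g i) i := by
      funext i
      rw [mul_assoc]
    rw [this, hx, hy, map_mul]
    push_cast
    ring
  · intro x _ hx g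
    have h1 := hx (fun i => x⁻¹ * g i)
    simp only [mul_inv_cancel_left] at h1
    have e := eps_sq (ε := ε) x
    have e2 : ((ε x⁻¹ : ℤ) : ℝ) = ((ε x : ℤ) : ℝ) := by
      rw [map_inv]
      rcases Int.units_eq_one_or (ε x) with h | h <;> rw [h] <;> simp
    rw [h1, e2, ← mul_assoc, e, one_mul]

theorem sum_push {S V₀ : Type} [Fintype S] [Fintype V₀] {n : ℕ} (f : S → V₀) (a : (Fin n → S) → ℝ)
    (F : (Fin n → V₀) → ℝ) : ∑ v, a v * F (f ∘ v) = ∑ u, push f a u * F u := by
  unfold push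
  simp only [Finset.sum_mul]
  rw [Finset.sum_comm]
  refine Finset.sum_congr rfl fun v _ => ?_
  rw [Finset.sum_eq_single (f ∘ v)]
  · rw [if_pos rfl]
  · intro u _ hu
    rw [if_neg (fun h => hu h.symm), zero_mul]
  · intro h
    exact absurd (Finset.mem_univ _) h

theorem ini_comp {S V₀ : Type} {n : ℕ} (f : S → V₀) (v : Fin n → S) (j : ℕ) :
    ini (f ∘ v) j = f '' ini v j := by
  ext x
  constructor
  · rintro ⟨l, hl, rfl⟩
    exact ⟨v l, ⟨l, hl, rfl⟩, rfl⟩
  · rintro ⟨_, ⟨l, hl, rfl⟩, rfl⟩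
    exact ⟨l, hl, rfl⟩

theorem C_map {S V₀ Γ Γ₀ : Type} [Group Γ] [Group Γ₀] {n : ℕ} (f : S → V₀) (γ : S → Γ) (γ₀ : V₀ → Γ₀)
    (π : Γ →* Γ₀) (hπ : ∀ x, π (γ x) = γ₀ (f x)) (v : Fin n → S) (j : ℕ) :
    (C γ v j).map π = C γ₀ (f ∘ v) j := by
  unfold C
  rw [MonoidHom.map_closure, ini_comp, Set.image_image, Set.image_image]
  congr 1
  ext x
  simp only [Set.mem_image, hπ]

section

variable {k : ℕ} {b : Fin k → Bool} {m : Fin k → ℕ} {κ : Fin k → ℝ}
  (Q : ∀ i, Pg (b i) (m i) (κ i))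

/-- the lower bound of the simplicial volume by a map to a join of polygons -/
theorem main_join {S Γ : Type} [Fintype S] [Group Γ] {ε : Γ →* ℤˣ} {γ : S → Γ}
    (hgen : Subgroup.closure (Set.range γ) = ⊤) (hεγ : ∀ x, ε (γ x) = -1)
    {G : SimpleGraph S} {a : (Fin (2 * k) → S) → ℝ} (ha : IsCyc (2 * k) G a)
    (hfin : ∀ v, a v ≠ 0 → ∀ j, Finite (C γ v j)) (f : S → Fin k × Fin 5)
    (hf : ∀ x y, G.Adj x y → f x = f y ∨ (Gj b).Adj (f x) (f y))
    (π : Γ →* (Fin k → Perm Ln)) (hπ : ∀ x, π (γ x) = γ0 Q (f x))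
    {H : Subgroup Γ} (hH : H.index ≠ 0) (hε : H ≤ ε.ker) :
    (H.index : ℝ) * |push f a (ue fun _ => (0, 1)) * ∏ i, κ i| ≤ svol ε γ (2 * k) a H := by
  have h0 := svol_lower (ε := ε) (γ := γ) hH hε hfin (fun g => c0 Q fun i => π (g i)) ?_ ?_ ?_
  · have h1 : ∑ v, a v * av (fun g => c0 Q fun i => π (g i))
        (fun i : Fin (2 * k + 1) => C γ v i) 1 = push f a (ue fun _ => (0, 1)) * ∏ i, κ i := by
      have h2 : ∀ v, a v * av (fun g => c0 Q fun i => π (g i))
          (fun i : Fin (2 * k + 1) => C γ v i) 1 = a v * (fun u => ∏ i : Fin k, M3 (Q i).ξ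
          (Dg Q u (2 * i) i) (Dg Q u (2 * i + 1) i) (Dg Q u (2 * i + 2) i)) (f ∘ v) := by
        intro v
        by_cases hv : a v = 0
        · rw [hv, zero_mul, zero_mul]
        · have hfv := hfin v hv
          have hf1 : ∀ j, Finite (C (γ0 Q) (f ∘ v) j) := by
            intro j
            rw [← C_map f γ (γ0 Q) π hπ v j]
            have := hfv j
            exact Finite.of_surjective (fun x : C γ v j => (⟨π x, Subgroup.mem_map_of_mem π x.2⟩ :
              (C γ v j).map π)) (by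
                rintro ⟨y, hy⟩
                obtain ⟨x, hx, rfl⟩ := Subgroup.mem_map.1 hy
                exact ⟨⟨x, hx⟩, rfl⟩)
          have hfv' : ∀ i : Fin (2 * k + 1), Finite (C γ v i) := fun i => hfv i
          congr 1
          rw [av_map π (c0 Q) (fun i : Fin (2 * k + 1) => C γ v i)]
          have h3 : (fun i : Fin (2 * k + 1) => (C γ v i).map π) =
              fun i : Fin (2 * k + 1) => C (γ0 Q) (f ∘ v) i := by
            funext i
            exact C_map f γ (γ0 Q) π hπ v i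
          rw [h3]
          exact av_c0 Q (f ∘ v) hf1
      rw [Finset.sum_congr rfl fun v _ => h2 v, sum_push f a (fun u => ∏ i : Fin k, M3 (Q i).ξ
          (Dg Q u (2 * i) i) (Dg Q u (2 * i + 1) i) (Dg Q u (2 * i + 2) i))]
      exact eval_join Q (ha.push f hf)
    rw [h1] at h0
    exact h0
  · intro w g
    refine equivar γ hgen ε hεγ (fun g => c0 Q fun i => π (g i)) ?_ w g
    intro x g
    simp only [map_mul, hπ]
    exact c0_neg Q (f x) fun i => π (g i)
  · intro g
    exact c0_coc Q fun i => π (g i)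
  · intro g
    exact c0_bound Q _

end

end Pool.Agent.J4.H27.EC
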