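import Pool.Agent.J4.H27.EC.Avg

/-!
Means over groups generated by one or two involutions.
-/

set_option autoImplicit false

open scoped Classical

namespace Pool.Agent.J4.H27.EC

variable {G : Type} [Group G]

theorem mean_congr {X : Type} {f g : X → ℝ} (h : ∀ x, f x = g x) : mean X f = mean X g := by
  have : f = g := funext h
  rw [this]

theorem mean_zero {X : Type} : mean X (fun _ => (0 : ℝ)) = 0 := by
  unfold mean
  simp

theorem mean_add {X : Type} [Finite X] (f g : X → ℝ) :
    mean X (fun x => f x + g x) = mean X f + mean X g := by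
  have := Fintype.ofFinite X
  simp only [mean_eq]
  rw [Finset.sum_add_distrib, mul_add]

theorem mean_prod {X Y : Type} [Finite X] [Finite Y] (f : X × Y → ℝ) :
    mean (X × Y) f = mean X fun x => mean Y fun y => f (x, y) := by
  have := Fintype.ofFinite X
  have := Fintype.ofFinite Y
  simp only [mean_eq]
  rw [Fintype.card_prod, Fintype.sum_prod_type, Nat.cast_mul, mul_inv, mul_assoc, Finset.mul_sum]

/-- the mean over a finite group, if the sums over translates are constant -/
theorem mean_trans (H : Subgroup G) [Finite H] (g : G → ℝ) {ι : Type} [Fintype ι] [Nonempty ι]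
    (k : ι → G) (hk : ∀ l, k l ∈ H) (hT : ∀ h ∈ H, ∑ l, g (k l * h) = ∑ l, g (k l)) :
    mean H (fun h => g h) = (Fintype.card ι : ℝ)⁻¹ * ∑ l, g (k l) := by
  have h1 : ∀ l, mean H (fun h => g (k l * h)) = mean H (fun h => g h) := by
    intro l
    exact mean_equiv (Equiv.mulLeft (⟨k l, hk l⟩ : H)) (fun h : H => g h)
  have h2 : mean H (fun h => ∑ l, g (k l * h)) = Fintype.card ι * mean H (fun h => g h) := by
    rw [mean_sum, Finset.sum_congr rfl fun l _ => h1 l, Finset.sum_const, nsmul_eq_mul,
      Finset.card_univ]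
  have h3 : mean H (fun h => ∑ l, g (k l * h)) = ∑ l, g (k l) := by
    rw [mean_congr fun h : H => hT h h.2]
    exact mean_const _
  rw [← h3, h2, ← mul_assoc, inv_mul_cancel₀, one_mul]
  rw [Nat.cast_ne_zero]
  exact Fintype.card_ne_zero

theorem closure_sub (s : Set G) (T : Set G) (h1 : 1 ∈ T) (hs : ∀ a ∈ s, a * a = 1)
    (hT : ∀ a ∈ s, ∀ t ∈ T, a * t ∈ T) : (Subgroup.closure s : Set G) ⊆ T := by
  intro x hx
  refine Subgroup.closure_induction_left (p := fun x _ => x ∈ T) h1 ?_ ?_ hx
  · intro a ha y _ hy
    exact hT a ha y hy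
  · intro a ha y _ hy
    have : a⁻¹ = a := inv_eq_of_mul_eq_one_left (hs a ha)
    rw [this]
    exact hT a ha y hy

theorem closure_const (s : Set G) (hs : ∀ a ∈ s, a * a = 1) (Φ : G → ℝ)
    (hΦ : ∀ a ∈ s, ∀ h, Φ (a * h) = Φ h) : ∀ h ∈ Subgroup.closure s, Φ h = Φ 1 := by
  intro h hh
  refine Subgroup.closure_induction_left (p := fun x _ => Φ x = Φ 1) rfl ?_ ?_ hh
  · intro a ha y _ hy
    rw [hΦ a ha, hy]
  · intro a ha y _ hy
    have : a⁻¹ = a := inv_eq_of_mul_eq_one_left (hs a ha)
    rw [this, hΦ a ha, hy]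

theorem mean_one_inv (A : G) (hA : A * A = 1) : Finite (Subgroup.closure {A}) ∧
    ∀ g : G → ℝ, mean (Subgroup.closure {A}) (fun h => g h) = (1 / 2) * (g 1 + g A) := by
  have hs : ∀ a ∈ ({A} : Set G), a * a = 1 := by
    intro a ha
    rw [Set.mem_singleton_iff.1 ha, hA]
  have hfin : Finite (Subgroup.closure {A}) := by
    have h1 := closure_sub {A} {1, A} (by simp) hs (by
      intro a ha t ht
      rw [Set.mem_singleton_iff.1 ha]
      rcases ht with rfl | ht
      · simp
      · rw [Set.mem_singleton_iff.1 ht, hA]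
        simp)
    exact ((Set.toFinite ({1, A} : Set G)).subset h1).to_subtype
  refine ⟨hfin, fun g => ?_⟩
  rw [mean_trans (Subgroup.closure {A}) g ![1, A]]
  · simp
  · intro l
    fin_cases l
    · exact one_mem _
    · exact Subgroup.subset_closure rfl
  · intro h hh
    have := closure_const {A} hs (fun h => ∑ l, g (![1, A] l * h)) (by
      intro a ha h
      rw [Set.mem_singleton_iff.1 ha]
      simp only [Fin.sum_univ_two, Matrix.cons_val_zero, Matrix.cons_val_one, one_mul]
      rw [← mul_assoc, hA, one_mul]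
      ring) h hh
    simpa using this

theorem mean_two (A B : G) (hA : A * A = 1) (hB : B * B = 1) (hAB : A * B = B * A) :
    Finite (Subgroup.closure {A, B}) ∧
    ∀ g : G → ℝ, mean (Subgroup.closure {A, B}) (fun h => g h) =
      (1 / 4) * (g 1 + g A + g B + g (A * B)) := by
  have hs : ∀ a ∈ ({A, B} : Set G), a * a = 1 := by
    intro a ha
    rcases ha with rfl | ha
    · exact hA
    · rw [Set.mem_singleton_iff.1 ha, hB]
  have hBA : B * (A * B) = A := by rw [hAB, ← mul_assoc, hB, one_mul]
  have hAA : A * (A * B) = B := by rw [← mul_assoc, hA, one_mul]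
  have hfin : Finite (Subgroup.closure {A, B}) := by
    have h1 := closure_sub {A, B} {1, A, B, A * B} (by simp) hs (by
      intro a ha t ht
      simp only [Set.mem_insert_iff, Set.mem_singleton_iff] at ha ht ⊢
      rcases ha with rfl | rfl <;> rcases ht with rfl | rfl | rfl | rfl
      · simp
      · simp [hA]
      · simp
      · simp [hAA]
      · simp
      · simp [hAB]
      · simp [hB]
      · simp [hBA])
    exact ((Set.toFinite ({1, A, B, A * B} : Set G)).subset h1).to_subtype
  refine ⟨hfin, fun g => ?_⟩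
  rw [mean_trans (Subgroup.closure {A, B}) g ![1, A, B, A * B]]
  · simp [Fin.sum_univ_four]
  · intro l
    have hA' : A ∈ Subgroup.closure {A, B} := Subgroup.subset_closure (by simp)
    have hB' : B ∈ Subgroup.closure {A, B} := Subgroup.subset_closure (by simp)
    fin_cases l
    · exact one_mem _
    · exact hA'
    · exact hB'
    · exact mul_mem hA' hB'
  · intro h hh
    have := closure_const {A, B} hs (fun h => ∑ l, g (![1, A, B, A * B] l * h)) (by
      intro a ha h
      simp only [Set.mem_insert_iff, Set.mem_singleton_iff] at ha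
      rcases ha with rfl | rfl
      · simp only [Fin.sum_univ_four, Matrix.cons_val_zero, Matrix.cons_val_one, Matrix.cons_val,
          one_mul]
        have e1 : a * (a * h) = h := by rw [← mul_assoc, hA, one_mul]
        have e2 : B * (a * h) = a * B * h := by rw [← mul_assoc, hAB]
        have e3 : a * B * (a * h) = B * h := by
          rw [hAB, mul_assoc, e1]
        rw [e1, e2, e3]
        ring
      · simp only [Fin.sum_univ_four, Matrix.cons_val_zero, Matrix.cons_val_one, Matrix.cons_val,
          one_mul]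
        have e1 : a * (a * h) = h := by rw [← mul_assoc, hB, one_mul]
        have e2 : A * (a * h) = A * a * h := by rw [mul_assoc]
        have e3 : A * a * (a * h) = A * h := by
          rw [mul_assoc, e1]
        rw [e1, e2, e3]
        ring) h hh
    simpa using this

theorem mean_dih (A B : G) (hA : A * A = 1) (hB : B * B = 1) (m : ℕ) (hm : 0 < m)
    (hR : (A * B) ^ m = 1) : Finite (Subgroup.closure {A, B}) ∧
    ∀ g : G → ℝ, mean (Subgroup.closure {A, B}) (fun h => g h) =
      (1 / (2 * m : ℝ)) * ∑ j ∈ Finset.range m, (g ((A * B) ^ j) + g ((A * B) ^ j * A)) := by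
  have hs : ∀ a ∈ ({A, B} : Set G), a * a = 1 := by
    intro a ha
    rcases ha with rfl | ha
    · exact hA
    · rw [Set.mem_singleton_iff.1 ha, hB]
  have hAi : A⁻¹ = A := inv_eq_of_mul_eq_one_left hA
  have hBi : B⁻¹ = B := inv_eq_of_mul_eq_one_left hB
  -- the rotation
  set R := A * B with hRd
  have hRi : R⁻¹ = B * A := by rw [hRd, mul_inv_rev, hAi, hBi]
  have hAR : A * R * A = R⁻¹ := by
    rw [hRi, hRd, ← mul_assoc, hA, one_mul]
  have hARj : ∀ j : ℕ, A * R ^ j * A = R⁻¹ ^ j := by
    intro j
    induction j with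
    | zero => simp [hA]
    | succ j ih =>
      have e1 : A * R ^ (j + 1) * A = (A * R ^ j * A) * (A * R * A) := by
        rw [pow_succ]
        have : A * R ^ j * A * (A * R * A) = A * R ^ j * (A * A) * R * A := by group
        rw [this, hA]
        group
      rw [e1, ih, hAR, pow_succ]
  have hB' : B = A * R := by rw [hRd, ← mul_assoc, hA, one_mul]
  let Φ : (G → ℝ) → G → ℝ := fun g h =>
    ∑ j ∈ Finset.range m, (g (R ^ j * h) + g (R ^ j * A * h))
  have hΦA : ∀ g h, Φ g (A * h) = Φ g h := by
    intro g h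
    simp only [Φ]
    refine Finset.sum_congr rfl fun j _ => ?_
    have e1 : R ^ j * A * (A * h) = R ^ j * h := by
      rw [mul_assoc (R ^ j) A, ← mul_assoc A A h, hA, one_mul]
    rw [e1, ← mul_assoc, add_comm]
  have hΦR : ∀ g h, Φ g (R * h) = Φ g h := by
    intro g h
    simp only [Φ]
    rw [Finset.sum_add_distrib, Finset.sum_add_distrib]
    congr 1
    · have e1 : ∀ j, g (R ^ j * (R * h)) = g (R ^ (j + 1) * h) := by
        intro j
        rw [← mul_assoc, pow_succ]
      simp only [e1]
      have h1 := Finset.sum_range_succ (fun j => g (R ^ j * h)) m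
      have h2 := Finset.sum_range_succ' (fun j => g (R ^ j * h)) m
      have e2 : g (R ^ m * h) = g (R ^ 0 * h) := by rw [hR, pow_zero]
      linarith
    · have e1 : ∀ j, R ^ (j + 1) * A * (R * h) = R ^ j * A * h := by
        intro j
        have e3 : A * R = R⁻¹ * A := by
          rw [← hAR]
          rw [mul_assoc (A * R) A A, hA, mul_one]
        rw [← mul_assoc, mul_assoc (R ^ (j + 1)) A R, e3, pow_succ]
        group
      have h1 := Finset.sum_range_succ (fun j => g (R ^ j * A * (R * h))) m
      have h2 := Finset.sum_range_succ' (fun j => g (R ^ j * A * (R * h))) m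
      simp only [e1] at h2
      have e2 : g (R ^ m * A * (R * h)) = g (R ^ 0 * A * (R * h)) := by rw [hR, pow_zero]
      linarith
  have hΦc : ∀ g, ∀ a ∈ ({A, B} : Set G), ∀ h, Φ g (a * h) = Φ g h := by
    intro g a ha h
    simp only [Set.mem_insert_iff, Set.mem_singleton_iff] at ha
    rcases ha with rfl | rfl
    · exact hΦA g h
    · rw [hB', mul_assoc, hΦA, hΦR]
  have hfin : Finite (Subgroup.closure {A, B}) := by
    let T : Set G := Set.range (fun p : Fin m × Bool => if p.2 then R ^ (p.1 : ℕ) * A else
      R ^ (p.1 : ℕ))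
    have hTj : ∀ j : ℕ, R ^ j ∈ T := by
      intro j
      refine ⟨(⟨j % m, Nat.mod_lt _ hm⟩, false), ?_⟩
      simp only [Bool.false_eq_true, if_false]
      conv_rhs => rw [← Nat.mod_add_div j m]
      rw [pow_add, pow_mul, hR, one_pow, mul_one]
    have hTj' : ∀ j : ℕ, R ^ j * A ∈ T := by
      intro j
      refine ⟨(⟨j % m, Nat.mod_lt _ hm⟩, true), ?_⟩
      simp only [if_true]
      conv_rhs => rw [← Nat.mod_add_div j m]
      rw [pow_add, pow_mul, hR, one_pow, mul_one]
    have hinv : ∀ j : ℕ, j < m → R⁻¹ ^ j = R ^ (m - j) := by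
      intro j hj
      rw [inv_pow]
      refine inv_eq_of_mul_eq_one_left ?_
      rw [← pow_add, Nat.sub_add_cancel hj.le, hR]
    have hA1 : ∀ t ∈ T, A * t ∈ T := by
      rintro t ⟨⟨j, b⟩, rfl⟩
      rcases b with _ | _
      · simp only [Bool.false_eq_true, if_false]
        have : A * R ^ (j : ℕ) = R ^ (m - j) * A := by
          rw [← hinv j j.2, ← hARj, mul_assoc (A * R ^ (j : ℕ)), hA, mul_one]
        rw [this]
        exact hTj' _
      · simp only [if_true]
        rw [← mul_assoc, hARj, hinv j j.2]
        exact hTj _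
    have hR1 : ∀ t ∈ T, R * t ∈ T := by
      rintro t ⟨⟨j, b⟩, rfl⟩
      rcases b with _ | _
      · simp only [Bool.false_eq_true, if_false]
        rw [← pow_succ']
        exact hTj _
      · simp only [if_true]
        rw [← mul_assoc, ← pow_succ']
        exact hTj' _
    have h1 := closure_sub {A, B} T (by simpa using hTj 0) hs (by
      intro a ha t ht
      simp only [Set.mem_insert_iff, Set.mem_singleton_iff] at ha
      rcases ha with rfl | rfl
      · exact hA1 t ht
      · rw [hB', mul_assoc]
        exact hA1 _ (hR1 t ht))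
    exact ((Set.finite_range _).subset h1).to_subtype
  refine ⟨hfin, fun g => ?_⟩
  have : Nonempty (Fin m × Bool) := ⟨(⟨0, hm⟩, false)⟩
  have hk : ∀ (Ψ : G → ℝ), ∑ l : Fin m × Bool,
      Ψ ((fun p : Fin m × Bool => if p.2 then R ^ (p.1 : ℕ) * A else R ^ (p.1 : ℕ)) l) =
      ∑ j ∈ Finset.range m, (Ψ (R ^ j) + Ψ (R ^ j * A)) := by
    intro Ψ
    rw [Fintype.sum_prod_type, Finset.sum_range]
    refine Finset.sum_congr rfl fun j _ => ?_
    rw [Fintype.sum_bool]
    simp only [if_true, Bool.false_eq_true, if_false]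
    ring
  rw [mean_trans (Subgroup.closure {A, B}) g
    (fun p : Fin m × Bool => if p.2 then R ^ (p.1 : ℕ) * A else R ^ (p.1 : ℕ))]
  · rw [hk]
    congr 1
    rw [Fintype.card_prod, Fintype.card_fin, Fintype.card_bool]
    push_cast
    rw [one_div, mul_comm]
  · rintro ⟨j, b⟩
    have hA' : A ∈ Subgroup.closure {A, B} := Subgroup.subset_closure (by simp)
    have hB'' : B ∈ Subgroup.closure {A, B} := Subgroup.subset_closure (by simp)
    have hR' : R ∈ Subgroup.closure {A, B} := mul_mem hA' hB''
    rcases b with _ | _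
    · exact pow_mem hR' _
    · exact mul_mem (pow_mem hR' _) hA'
  · intro h hh
    have h1 := closure_const {A, B} hs (Φ g) (hΦc g) h hh
    simp only [Φ, mul_one] at h1
    rw [hk (fun x => g (x * h)), hk g]
    exact h1

end Pool.Agent.J4.H27.EC
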