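import Pool.Agent.J4.H27.EC.Circ
import Pool.Agent.J4.H27.EC.Mean

/-!
The Lambert quadrilaterals and the right-angled pentagon.
-/

set_option autoImplicit false

open scoped Classical

namespace Pool.Agent.J4.H27.EC

open Equiv (Perm)

/-- the value of a flag of groups generated by two reflections -/
noncomputable def Fv (ξ : Ln) (A B : Perm Ln) : ℝ :=
  mean ((⊥ : Subgroup (Perm Ln)) × Subgroup.closure {A} × Subgroup.closure {A, B})
    (fun p => orr ((p.1 : Perm Ln) ξ) ((p.2.1 : Perm Ln) ξ) ((p.2.2 : Perm Ln) ξ))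

theorem Fv_eq (ξ : Ln) (A B : Perm Ln) (hA : A * A = 1) (hf : Finite (Subgroup.closure {A, B})) :
    Fv ξ A B = (1 / 2) * mean (Subgroup.closure {A, B}) (fun h => orr ξ (A ξ) ((h : Perm Ln) ξ)) := by
  obtain ⟨hfA, hmA⟩ := mean_one_inv A hA
  unfold Fv
  rw [mean_prod, mean_unique, mean_prod]
  have h1 : ((default : (⊥ : Subgroup (Perm Ln))) : Perm Ln) = 1 :=
    Subgroup.mem_bot.1 (default : (⊥ : Subgroup (Perm Ln))).2
  have h2 := hmA fun x => mean (Subgroup.closure {A, B}) fun y => orr ξ (x ξ) ((y : Perm Ln) ξ)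
  simp only [h1, Equiv.Perm.coe_one, id_eq] at h2 ⊢
  rw [h2]
  simp only [orr_left]
  rw [mean_zero, zero_add]

theorem Fv_comm (ξ : Ln) (A B : Perm Ln) (hA : A * A = 1) (hB : B * B = 1)
    (hAB : A * B = B * A) : Fv ξ A B = (1 / 8) * (orr ξ (A ξ) (B ξ) + orr ξ (A ξ) (A (B ξ))) := by
  obtain ⟨hf, hm⟩ := mean_two A B hA hB hAB
  rw [Fv_eq ξ A B hA hf, hm fun h => orr ξ (A ξ) (h ξ)]
  simp only [Equiv.Perm.coe_one, id_eq, orr_ends, orr_right, Equiv.Perm.coe_mul,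
    Function.comp_apply]
  ring

theorem Fv_fix1 (ξ : Ln) (A B : Perm Ln) (hA : A * A = 1) (hB : B * B = 1)
    (hAB : A * B = B * A) (h : A ξ = ξ) : Fv ξ A B = 0 := by
  rw [Fv_comm ξ A B hA hB hAB, h, orr_left, orr_left]
  ring

theorem Fv_fix2 (ξ : Ln) (A B : Perm Ln) (hA : A * A = 1) (hB : B * B = 1)
    (hAB : A * B = B * A) (h : B ξ = ξ) : Fv ξ A B = 0 := by
  rw [Fv_comm ξ A B hA hB hAB, h, orr_ends, orr_right]
  ring

/-- the next vertex of the polygon: a pentagon or a quadrilateral and a further point -/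
def nx : Bool → Fin 5 → Fin 5
  | true => ![1, 2, 3, 4, 0]
  | false => ![1, 2, 3, 0, 4]

/-- the fundamental cycle of the polygon -/
def zz (b : Bool) (x y : Fin 5) : ℝ :=
  (if nx b x = y then 1 else 0) - (if nx b y = x then 1 else 0)

/-- the edges of the polygon -/
def pa (b : Bool) (x y : Fin 5) : Prop := x ≠ y ∧ (nx b x = y ∨ nx b y = x)

instance (b : Bool) (x y : Fin 5) : Decidable (pa b x y) := by unfold pa; infer_instance

/-- Reflections in the sides of a quadrilateral or pentagon. -/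
structure Pg (b : Bool) (m : ℕ) (κ : ℝ) where
  R : Fin 5 → Perm Ln
  ξ : Ln
  inv : ∀ j, R j * R j = 1
  rev : ∀ j p q r, orr (R j p) (R j q) (R j r) = - orr p q r
  comm : ∀ x y, pa b x y → ¬ (x = 0 ∧ y = 1) → ¬ (x = 1 ∧ y = 0) → R x * R y = R y * R x
  rot : (R 0 * R 1) ^ m = 1
  val : ∑ x, ∑ y, zz b x y * Fv ξ (R x) (R y) = κ

/-! ### The pentagon -/

/-- a vector -/
def vec (x y : ℝ) (h : 0 < y ∨ 0 < x) : NZ := ⟨(x, y), by
  intro e
  have h1 := congrArg Prod.fst e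
  have h2 := congrArg Prod.snd e
  simp only [Prod.fst_zero, Prod.snd_zero] at h1 h2
  rcases h with h | h
  · linarith
  · linarith⟩

theorem vec_fst (x y : ℝ) (h : 0 < y ∨ 0 < x) : (vec x y h).1.1 = x := rfl

theorem vec_snd (x y : ℝ) (h : 0 < y ∨ 0 < x) : (vec x y h).1.2 = y := rfl

theorem rp_vec (a b c : ℝ) (hr : 0 < a ^ 2 + b * c) (x y x' y' : ℝ) (h : 0 < y ∨ 0 < x)
    (h' : 0 < y' ∨ 0 < x') (e : (a * x + b * y) * y' - (c * x - a * y) * x' = 0) :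
    rp a b c hr ⟦vec x y h⟧ = ⟦vec x' y' h'⟧ := by
  rw [rp_mk, ln_eq]
  exact e

theorem orr_vec (x y x' y' x'' y'' : ℝ) (h : 0 < y ∨ 0 < x) (h' : 0 < y' ∨ 0 < x')
    (h'' : 0 < y'' ∨ 0 < x'') : orr ⟦vec x y h⟧ ⟦vec x' y' h'⟧ ⟦vec x'' y'' h''⟧ =
    sg ((x * y' - y * x') * (x' * y'' - y' * x'') * (x'' * y - y'' * x)) := by
  rw [orr_mk]
  rfl

/-- the sides of the pentagon -/
noncomputable def pR : Fin 5 → Perm Ln :=
  ![rp 1 0 0 (by norm_num), rp 0 1 1 (by norm_num), rp (-5) 4 (-4) (by norm_num),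
    rp (-4) 9 (-1) (by norm_num), rp 0 9 1 (by norm_num)]

theorem pent_comm : ∀ x y : Fin 5, pa true x y → pR x * pR y = pR y * pR x := by
  intro x y h
  fin_cases x <;> fin_cases y <;> first
    | exact absurd h (by decide)
    | exact rp_comm (by norm_num) (by norm_num) (by norm_num)

theorem pent_inv (j : Fin 5) : pR j * pR j = 1 := by
  fin_cases j <;> exact rp_mul_self _ _ _ (by norm_num)

theorem pent_rev (j : Fin 5) (p q r : Ln) : orr (pR j p) (pR j q) (pR j r) = - orr p q r := by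
  fin_cases j <;> exact orr_rp _ _ _ (by norm_num) p q r

theorem pent_val : ∑ x, ∑ y, zz true x y * Fv ⟦vec 3 1 (by norm_num)⟧ (pR x) (pR y) = 1 / 2 := by
  set ξ : Ln := ⟦vec 3 1 (by norm_num)⟧ with hξ
  have e0 : pR 0 ξ = ⟦vec 3 (-1) (by norm_num)⟧ := rp_vec _ _ _ (by norm_num) _ _ _ _ _ _ (by norm_num)
  have e1 : pR 1 ξ = ⟦vec 1 3 (by norm_num)⟧ := rp_vec _ _ _ (by norm_num) _ _ _ _ _ _ (by norm_num)
  have e2 : pR 2 ξ = ⟦vec 11 7 (by norm_num)⟧ := rp_vec _ _ _ (by norm_num) _ _ _ _ _ _ (by norm_num)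
  have e3 : pR 3 ξ = ⟦vec (-3) 1 (by norm_num)⟧ := rp_vec _ _ _ (by norm_num) _ _ _ _ _ _ (by norm_num)
  have e4 : pR 4 ξ = ξ := rp_vec _ _ _ (by norm_num) _ _ _ _ _ _ (by norm_num)
  have e01 : pR 0 (pR 1 ξ) = ⟦vec (-1) 3 (by norm_num)⟧ := by
    rw [e1]; exact rp_vec _ _ _ (by norm_num) _ _ _ _ _ _ (by norm_num)
  have e10 : pR 1 (pR 0 ξ) = ⟦vec (-1) 3 (by norm_num)⟧ := by
    rw [e0]; exact rp_vec _ _ _ (by norm_num) _ _ _ _ _ _ (by norm_num)
  have e12 : pR 1 (pR 2 ξ) = ⟦vec 7 11 (by norm_num)⟧ := by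
    rw [e2]; exact rp_vec _ _ _ (by norm_num) _ _ _ _ _ _ (by norm_num)
  have e21 : pR 2 (pR 1 ξ) = ⟦vec 7 11 (by norm_num)⟧ := by
    rw [e1]; exact rp_vec _ _ _ (by norm_num) _ _ _ _ _ _ (by norm_num)
  have e23 : pR 2 (pR 3 ξ) = ⟦vec 19 17 (by norm_num)⟧ := by
    rw [e3]; exact rp_vec _ _ _ (by norm_num) _ _ _ _ _ _ (by norm_num)
  have e32 : pR 3 (pR 2 ξ) = ⟦vec 19 17 (by norm_num)⟧ := by
    rw [e2]; exact rp_vec _ _ _ (by norm_num) _ _ _ _ _ _ (by norm_num)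
  have c := fun x y h => Fv_comm ξ (pR x) (pR y) (pent_inv x) (pent_inv y) (pent_comm x y h)
  have f01 : Fv ξ (pR 0) (pR 1) = 1 / 4 := by
    rw [c 0 1 (by decide), e01, e0, e1, hξ, orr_vec, orr_vec, sg_pos, sg_pos] <;> norm_num
  have f10 : Fv ξ (pR 1) (pR 0) = - (1 / 4) := by
    rw [c 1 0 (by decide), e10, e0, e1, hξ, orr_vec, orr_vec, sg_neg, sg_neg] <;> norm_num
  have f12 : Fv ξ (pR 1) (pR 2) = 1 / 4 := by
    rw [c 1 2 (by decide), e12, e1, e2, hξ, orr_vec, orr_vec, sg_pos, sg_pos] <;> norm_num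
  have f21 : Fv ξ (pR 2) (pR 1) = - (1 / 4) := by
    rw [c 2 1 (by decide), e21, e1, e2, hξ, orr_vec, orr_vec, sg_neg, sg_neg] <;> norm_num
  have f23 : Fv ξ (pR 2) (pR 3) = - (1 / 4) := by
    rw [c 2 3 (by decide), e23, e2, e3, hξ, orr_vec, orr_vec, sg_neg, sg_neg] <;> norm_num
  have f32 : Fv ξ (pR 3) (pR 2) = 1 / 4 := by
    rw [c 3 2 (by decide), e32, e2, e3, hξ, orr_vec, orr_vec, sg_pos, sg_pos] <;> norm_num
  have f34 : Fv ξ (pR 3) (pR 4) = 0 :=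
    Fv_fix2 ξ _ _ (pent_inv 3) (pent_inv 4) (pent_comm 3 4 (by decide)) e4
  have f43 : Fv ξ (pR 4) (pR 3) = 0 :=
    Fv_fix1 ξ _ _ (pent_inv 4) (pent_inv 3) (pent_comm 4 3 (by decide)) e4
  have f40 : Fv ξ (pR 4) (pR 0) = 0 :=
    Fv_fix1 ξ _ _ (pent_inv 4) (pent_inv 0) (pent_comm 4 0 (by decide)) e4
  have f04 : Fv ξ (pR 0) (pR 4) = 0 :=
    Fv_fix2 ξ _ _ (pent_inv 0) (pent_inv 4) (pent_comm 0 4 (by decide)) e4
  simp only [Fin.sum_univ_five, zz]
  simp only [show (nx true 0) = 1 from rfl, show (nx true 1) = 2 from rfl,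
    show (nx true 2) = 3 from rfl, show (nx true 3) = 4 from rfl, show (nx true 4) = 0 from rfl]
  simp [f01, f10, f12, f21, f23, f32, f34, f43, f40, f04]
  norm_num

/-- the pentagon -/
noncomputable def pent : Pg true 2 (1 / 2) where
  R := pR
  ξ := ⟦vec 3 1 (by norm_num)⟧
  inv := pent_inv
  rev := pent_rev
  comm := fun x y h _ _ => pent_comm x y h
  rot := by
    have h := pent_comm 0 1 (by decide)
    rw [pow_two]
    have : pR 0 * pR 1 * (pR 0 * pR 1) = pR 0 * (pR 1 * pR 0) * pR 1 := by group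
    rw [this, ← h, ← mul_assoc, pent_inv, one_mul, pent_inv]
  val := pent_val

end Pool.Agent.J4.H27.EC
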