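import Pool.Agent.J4.H27.EC.Poly
import Pool.Agent.N13.QC.Up

/-!
Products of orientation cocycles, and cycles of joins of polygons.
-/

set_option autoImplicit false

open scoped Classical

namespace Pool.Agent.J4.H27.EC

open Equiv (Perm)
open Pool.Agent.Q134.SV Pool.Agent.N13.QC

/-- the set of the first `m` entries of a tuple -/
def ini {V : Type} {n : ℕ} (v : Fin n → V) (m : ℕ) : Set V := {x | ∃ j : Fin n, (j : ℕ) < m ∧ v j = x}

/-- the group generated by the first `m` entries -/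
def C {V Γ : Type} [Group Γ] {n : ℕ} (γ : V → Γ) (v : Fin n → V) (m : ℕ) : Subgroup Γ :=
  Subgroup.closure (γ '' ini v m)

theorem PC_eq {Γ : Type} : ∀ (k : ℕ) (F : Fin k → Γ → Γ → Γ → ℝ) (w : Fin (2 * k + 1) → Γ),
    PC k F w = ∏ i : Fin k, F i (w ⟨2 * i, by omega⟩) (w ⟨2 * i + 1, by omega⟩)
      (w ⟨2 * i + 2, by omega⟩)
  | 0, _, _ => by simp [PC]
  | k + 1, F, w => by
    have e : PC (k + 1) F w = F 0 (w 0) (w 1) (w 2) *
      PC k (fun i => F i.succ) (fun i => w i.succ.succ) := rfl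
    rw [e, PC_eq k, Fin.prod_univ_succ]
    rfl

theorem mean_pi {k : ℕ} {Y : Fin k → Type} [∀ i, Finite (Y i)] (φ : ∀ i, Y i → ℝ) :
    mean (∀ i, Y i) (fun y => ∏ i, φ i (y i)) = ∏ i, mean (Y i) (φ i) := by
  have : ∀ i, Fintype (Y i) := fun i => Fintype.ofFinite _
  simp only [mean_eq]
  rw [Finset.prod_mul_distrib, Finset.prod_univ_sum, Fintype.card_pi]
  push_cast
  rw [← Finset.prod_inv_distrib, Fintype.piFinset_univ]

/-- the mean of the orientation over three groups -/
noncomputable def M3 (ξ : Ln) (A B E : Subgroup (Perm Ln)) : ℝ :=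
  mean (A × B × E)
    (fun p => orr ((p.1 : Perm Ln) ξ) ((p.2.1 : Perm Ln) ξ) ((p.2.2 : Perm Ln) ξ))

theorem M3_Fv (ξ : Ln) (A B : Perm Ln) :
    M3 ξ ⊥ (Subgroup.closure {A}) (Subgroup.closure {A, B}) = Fv ξ A B := rfl

theorem M3_left (ξ : Ln) (A E : Subgroup (Perm Ln)) : M3 ξ A A E = 0 := by
  unfold M3
  let e : (A × A × E) ≃ (A × A × E) :=
    { toFun := fun p => (p.2.1, p.1, p.2.2)
      invFun := fun p => (p.2.1, p.1, p.2.2)
      left_inv := fun p => rfl
      right_inv := fun p => rfl }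
  have h := mean_equiv e (fun p => orr ((p.1 : Perm Ln) ξ) ((p.2.1 : Perm Ln) ξ)
    ((p.2.2 : Perm Ln) ξ))
  have h2 : mean (A × A × E) (fun p => orr (((e p).1 : Perm Ln) ξ) (((e p).2.1 : Perm Ln) ξ)
      (((e p).2.2 : Perm Ln) ξ)) = - mean (A × A × E) (fun p => orr ((p.1 : Perm Ln) ξ)
      ((p.2.1 : Perm Ln) ξ) ((p.2.2 : Perm Ln) ξ)) := by
    rw [← mean_neg]
    exact mean_congr fun p => orr_swap _ _ _
  rw [h2] at h
  linarith

theorem M3_right (ξ : Ln) (A B : Subgroup (Perm Ln)) : M3 ξ A B B = 0 := by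
  unfold M3
  let e : (A × B × B) ≃ (A × B × B) :=
    { toFun := fun p => (p.1, p.2.2, p.2.1)
      invFun := fun p => (p.1, p.2.2, p.2.1)
      left_inv := fun p => rfl
      right_inv := fun p => rfl }
  have h := mean_equiv e (fun p => orr ((p.1 : Perm Ln) ξ) ((p.2.1 : Perm Ln) ξ)
    ((p.2.2 : Perm Ln) ξ))
  have h2 : mean (A × B × B) (fun p => orr (((e p).1 : Perm Ln) ξ) (((e p).2.1 : Perm Ln) ξ)
      (((e p).2.2 : Perm Ln) ξ)) = - mean (A × B × B) (fun p => orr ((p.1 : Perm Ln) ξ)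
      ((p.2.1 : Perm Ln) ξ) ((p.2.2 : Perm Ln) ξ)) := by
    rw [← mean_neg]
    exact mean_congr fun p => orr_swap' _ _ _
  rw [h2] at h
  linarith

section

variable {k : ℕ} {b : Fin k → Bool} {m : Fin k → ℕ} {κ : Fin k → ℝ}
  (Q : ∀ i, Pg (b i) (m i) (κ i))

/-- the reflections of the polygons -/
noncomputable def γ0 (p : Fin k × Fin 5) : Fin k → Perm Ln := Pi.mulSingle p.1 ((Q p.1).R p.2)

/-- the orientation cocycle of the polygon `i` -/
noncomputable def ci (i : Fin k) (g0 g1 g2 : Fin k → Perm Ln) : ℝ :=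
  orr (g0 i (Q i).ξ) (g1 i (Q i).ξ) (g2 i (Q i).ξ)

/-- the product of the orientation cocycles -/
noncomputable def c0 : (Fin (2 * k + 1) → (Fin k → Perm Ln)) → ℝ := PC k (ci Q)

theorem c0_coc (w : Fin (2 * k + 2) → (Fin k → Perm Ln)) : cobd (c0 Q) w = 0 :=
  Up.PC_coc k (ci Q) (fun _ _ _ _ _ => orr_coc _ _ _ _) w

theorem c0_neg (p : Fin k × Fin 5) (w : Fin (2 * k + 1) → (Fin k → Perm Ln)) :
    c0 Q (fun j => γ0 Q p * w j) = - c0 Q w := by
  unfold c0
  rw [Up.PC_mul (γ0 Q p) k (fun i => if i = p.1 then -1 else 1) (ci Q)]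
  · rw [Finset.prod_ite_eq' Finset.univ p.1 (fun _ => (-1 : ℝ))]
    simp
  · intro i g0 g1 g2
    unfold ci γ0
    by_cases h : i = p.1
    · subst h
      rw [if_pos rfl]
      simp only [Pi.mul_apply, Pi.mulSingle_eq_same, Equiv.Perm.coe_mul, Function.comp_apply]
      rw [(Q p.1).rev]
      ring
    · rw [if_neg h]
      simp only [Pi.mul_apply, Pi.mulSingle_eq_of_ne h, one_mul]

theorem c0_bound (w : Fin (2 * k + 1) → (Fin k → Perm Ln)) : |c0 Q w| ≤ 1 := by
  unfold c0
  rw [PC_eq, Finset.abs_prod]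
  exact Finset.prod_le_one (fun _ _ => abs_nonneg _) fun _ _ => abs_orr _ _ _

/-- the group of the colour `i` -/
def Dg (u : Fin (2 * k) → Fin k × Fin 5) (j : ℕ) (i : Fin k) : Subgroup (Perm Ln) :=
  Subgroup.closure ((Q i).R '' {x | (i, x) ∈ ini u j})

theorem C_eq (u : Fin (2 * k) → Fin k × Fin 5) (j : ℕ) :
    C (γ0 Q) u j = Subgroup.pi Set.univ fun i => Dg Q u j i := by
  apply le_antisymm
  · unfold C
    rw [Subgroup.closure_le]
    rintro _ ⟨p, hp, rfl⟩
    rw [SetLike.mem_coe, Subgroup.mem_pi]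
    intro i _
    unfold γ0
    by_cases h : i = p.1
    · subst h
      rw [Pi.mulSingle_eq_same]
      exact Subgroup.subset_closure ⟨p.2, hp, rfl⟩
    · rw [Pi.mulSingle_eq_of_ne h]
      exact one_mem _
  · intro g hg
    rw [Subgroup.mem_pi] at hg
    apply Subgroup.pi_mem_of_mulSingle_mem
    intro i
    have h1 : (Dg Q u j i).map (MonoidHom.mulSingle (fun _ : Fin k => Perm Ln) i) ≤
        C (γ0 Q) u j := by
      unfold Dg C
      rw [MonoidHom.map_closure, Subgroup.closure_le]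
      rintro _ ⟨_, ⟨x, hx, rfl⟩, rfl⟩
      exact Subgroup.subset_closure ⟨(i, x), hx, rfl⟩
    exact h1 (Subgroup.mem_map_of_mem _ (hg i (Set.mem_univ _)))

theorem Dg_fin (u : Fin (2 * k) → Fin k × Fin 5) (j : ℕ) (h : Finite (C (γ0 Q) u j)) (i : Fin k) :
    Finite (Dg Q u j i) := by
  have h1 : ∀ x : Dg Q u j i, Pi.mulSingle i (x : Perm Ln) ∈ C (γ0 Q) u j := by
    intro x
    rw [C_eq, Subgroup.mem_pi]
    intro i' _
    by_cases e : i' = i
    · subst e
      rw [Pi.mulSingle_eq_same]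
      exact x.2
    · rw [Pi.mulSingle_eq_of_ne e]
      exact one_mem _
  refine Finite.of_injective (fun x : Dg Q u j i => (⟨_, h1 x⟩ : C (γ0 Q) u j)) ?_
  intro x y hxy
  have h2 := congrArg (fun z : C (γ0 Q) u j => (z : Fin k → Perm Ln) i) hxy
  simp only [Pi.mulSingle_eq_same] at h2
  exact Subtype.ext h2

/-- the value of the product of the orientation cocycles at the flag of a tuple -/
theorem av_c0 (u : Fin (2 * k) → Fin k × Fin 5) (hf : ∀ j, Finite (C (γ0 Q) u j)) :
    av (c0 Q) (fun j : Fin (2 * k + 1) => C (γ0 Q) u j) 1 =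
      ∏ i : Fin k, M3 (Q i).ξ (Dg Q u (2 * i) i) (Dg Q u (2 * i + 1) i) (Dg Q u (2 * i + 2) i) := by
  have hD := fun j i => Dg_fin Q u j (hf j) i
  have hmem : ∀ (j : ℕ) (g : C (γ0 Q) u j) (i : Fin k), (g : Fin k → Perm Ln) i ∈ Dg Q u j i := by
    intro j g i
    have := (SetLike.ext_iff.1 (C_eq Q u j) (g : Fin k → Perm Ln)).1 g.2
    rw [Subgroup.mem_pi] at this
    exact this i (Set.mem_univ _)
  let Φ : (∀ j : Fin (2 * k + 1), C (γ0 Q) u j) →*
      (∀ i : Fin k, Dg Q u (2 * i) i × Dg Q u (2 * i + 1) i × Dg Q u (2 * i + 2) i) :=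
    { toFun := fun h i => (⟨_, hmem _ (h ⟨2 * i, by omega⟩) i⟩,
        ⟨_, hmem _ (h ⟨2 * i + 1, by omega⟩) i⟩, ⟨_, hmem _ (h ⟨2 * i + 2, by omega⟩) i⟩)
      map_one' := rfl
      map_mul' := fun _ _ => rfl }
  have hΦ : Function.Surjective Φ := by
    intro p
    let g : ∀ j : Fin (2 * k + 1), Fin k → Perm Ln := fun j i =>
      if (j : ℕ) = 2 * i then (p i).1 else if (j : ℕ) = 2 * i + 1 then (p i).2.1 else
        if (j : ℕ) = 2 * i + 2 then (p i).2.2 else 1
    have hg : ∀ j : Fin (2 * k + 1), g j ∈ C (γ0 Q) u j := by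
      intro j
      rw [C_eq, Subgroup.mem_pi]
      intro i _
      simp only [g]
      split_ifs with h1 h2 h3
      · rw [h1]; exact (p i).1.2
      · rw [h2]; exact (p i).2.1.2
      · rw [h3]; exact (p i).2.2.2
      · exact one_mem _
    refine ⟨fun j => ⟨g j, hg j⟩, ?_⟩
    funext i
    refine Prod.ext ?_ (Prod.ext ?_ ?_)
    · apply Subtype.ext
      change g ⟨2 * i, _⟩ i = _
      simp only [g]
      rw [if_pos trivial]
    · apply Subtype.ext
      change g ⟨2 * i + 1, _⟩ i = _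
      simp only [g]
      rw [if_neg (by omega)]
      simp
    · apply Subtype.ext
      change g ⟨2 * i + 2, _⟩ i = _
      simp only [g]
      rw [if_neg (by omega), if_neg (by omega)]
      simp
  let F : (∀ i : Fin k, Dg Q u (2 * i) i × Dg Q u (2 * i + 1) i × Dg Q u (2 * i + 2) i) → ℝ :=
    fun q => ∏ i : Fin k, orr (((q i).1 : Perm Ln) (Q i).ξ) (((q i).2.1 : Perm Ln) (Q i).ξ)
          (((q i).2.2 : Perm Ln) (Q i).ξ)
  have h1 : av (c0 Q) (fun j : Fin (2 * k + 1) => C (γ0 Q) u j) 1 =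
      mean (∀ j : Fin (2 * k + 1), C (γ0 Q) u j) (fun h => F (Φ h)) := by
    unfold av
    refine mean_congr fun h => ?_
    unfold c0
    rw [PC_eq]
    refine Finset.prod_congr rfl fun i _ => ?_
    unfold ci
    simp only [Pi.one_apply, one_mul]
    rfl
  rw [h1, mean_surj Φ hΦ F]
  exact mean_pi (Y := fun i : Fin k => Dg Q u (2 * i) i × Dg Q u (2 * i + 1) i ×
    Dg Q u (2 * i + 2) i) (fun i q => orr ((q.1 : Perm Ln) (Q i).ξ) ((q.2.1 : Perm Ln) (Q i).ξ)
          ((q.2.2 : Perm Ln) (Q i).ξ))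

theorem ini_succ {V : Type} {n : ℕ} (v : Fin n → V) (j : ℕ) (hj : j < n) :
    ini v (j + 1) = insert (v ⟨j, hj⟩) (ini v j) := by
  ext x
  constructor
  · rintro ⟨l, hl, rfl⟩
    rcases Nat.lt_succ_iff_lt_or_eq.1 hl with h | h
    · exact Or.inr ⟨l, h, rfl⟩
    · left
      congr 1
      exact Fin.ext h
  · rintro (rfl | ⟨l, hl, rfl⟩)
    · exact ⟨⟨j, hj⟩, Nat.lt_succ_self _, rfl⟩
    · exact ⟨l, Nat.lt_succ_of_lt hl, rfl⟩

theorem Dg_succ (u : Fin (2 * k) → Fin k × Fin 5) (j : ℕ) (hj : j < 2 * k) (i : Fin k)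
    (h : (u ⟨j, hj⟩).1 ≠ i) : Dg Q u (j + 1) i = Dg Q u j i := by
  unfold Dg
  rw [ini_succ u j hj]
  congr 2
  ext x
  simp only [Set.mem_insert_iff, Set.mem_ofPred_eq]
  constructor
  · rintro (e | e)
    · rw [← e] at h
      exact absurd rfl h
    · exact e
  · exact fun e => Or.inr e

theorem M3_zero (u : Fin (2 * k) → Fin k × Fin 5) (i : Fin k)
    (h : ¬ ((u ⟨2 * i, by omega⟩).1 = i ∧ (u ⟨2 * i + 1, by omega⟩).1 = i)) :
    M3 (Q i).ξ (Dg Q u (2 * i) i) (Dg Q u (2 * i + 1) i) (Dg Q u (2 * i + 2) i) = 0 := by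
  by_cases h1 : (u ⟨2 * i, by omega⟩).1 = i
  · have h2 : (u ⟨2 * i + 1, by omega⟩).1 ≠ i := fun e => h ⟨h1, e⟩
    rw [Dg_succ Q u (2 * i + 1) (by omega) i h2, M3_right]
  · rw [Dg_succ Q u (2 * i) (by omega) i h1, M3_left]

/-- the tuple of the simplex of the join with the edges `e i` -/
def ue (e : Fin k → Fin 5 × Fin 5) (j : Fin (2 * k)) : Fin k × Fin 5 :=
  (⟨j / 2, by omega⟩, if (j : ℕ) % 2 = 0 then (e ⟨j / 2, by omega⟩).1 else (e ⟨j / 2, by omega⟩).2)

theorem ue_even (e : Fin k → Fin 5 × Fin 5) (i : Fin k) : ue e ⟨2 * i, by omega⟩ = (i, (e i).1) := by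
  unfold ue
  have h1 : 2 * (i : ℕ) / 2 = i := by omega
  simp only [h1, Nat.mul_mod_right, if_true]

theorem ue_odd (e : Fin k → Fin 5 × Fin 5) (i : Fin k) :
    ue e ⟨2 * i + 1, by omega⟩ = (i, (e i).2) := by
  unfold ue
  have h1 : (2 * (i : ℕ) + 1) / 2 = i := by omega
  have h2 : (2 * (i : ℕ) + 1) % 2 = 1 := by omega
  simp only [h1, h2, one_ne_zero, if_false]

theorem idx (j : Fin (2 * k)) : (∃ i : Fin k, j = ⟨2 * i, by omega⟩) ∨
    ∃ i : Fin k, j = ⟨2 * i + 1, by omega⟩ := by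
  have hj := j.2
  rcases Nat.even_or_odd (j : ℕ) with ⟨l, hl⟩ | ⟨l, hl⟩
  · left
    exact ⟨⟨l, by omega⟩, Fin.ext (by simp only; omega)⟩
  · right
    exact ⟨⟨l, by omega⟩, Fin.ext (by simp only; omega)⟩

theorem ue_val (e : Fin k → Fin 5 × Fin 5) (i : Fin k) :
    M3 (Q i).ξ (Dg Q (ue e) (2 * i) i) (Dg Q (ue e) (2 * i + 1) i) (Dg Q (ue e) (2 * i + 2) i) =
      Fv (Q i).ξ ((Q i).R (e i).1) ((Q i).R (e i).2) := by
  have h0 : {x | (i, x) ∈ ini (ue e) (2 * i)} = (∅ : Set (Fin 5)) := by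
    ext x
    simp only [Set.mem_ofPred_eq, Set.mem_empty_iff_false, iff_false]
    rintro ⟨l, hl, he⟩
    rcases idx l with ⟨i', rfl⟩ | ⟨i', rfl⟩
    · rw [ue_even] at he
      have : i' = i := congrArg Prod.fst he
      rw [this] at hl
      simp only at hl
      omega
    · rw [ue_odd] at he
      have : i' = i := congrArg Prod.fst he
      rw [this] at hl
      simp only at hl
      omega
  have h1 : {x | (i, x) ∈ ini (ue e) (2 * i + 1)} = ({(e i).1} : Set (Fin 5)) := by
    rw [ini_succ (ue e) (2 * i) (by omega), ue_even]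
    ext x
    have h0' : (i, x) ∈ ini (ue e) (2 * i) ↔ False := by
      have := Set.ext_iff.1 h0 x
      simpa using this
    simp only [Set.mem_insert_iff, Set.mem_ofPred_eq, Prod.mk.injEq, true_and, h0', or_false,
      Set.mem_singleton_iff]
  have h2 : {x | (i, x) ∈ ini (ue e) (2 * i + 2)} = ({(e i).1, (e i).2} : Set (Fin 5)) := by
    rw [ini_succ (ue e) (2 * i + 1) (by omega), ue_odd]
    ext x
    have h0' : (i, x) ∈ ini (ue e) (2 * i + 1) ↔ x = (e i).1 := by
      have := Set.ext_iff.1 h1 x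
      simpa using this
    simp only [Set.mem_insert_iff, Set.mem_ofPred_eq, Prod.mk.injEq, true_and, h0',
      Set.mem_singleton_iff]
    exact or_comm
  rw [← M3_Fv]
  unfold Dg
  rw [h0, h1, h2, Set.image_empty, Subgroup.closure_empty, Set.image_singleton, Set.image_pair]

/-- the join of the polygons -/
def Gj (b : Fin k → Bool) : SimpleGraph (Fin k × Fin 5) where
  Adj p q := p.1 ≠ q.1 ∨ (p.1 = q.1 ∧ pa (b p.1) p.2 q.2)
  symm := ⟨by
    rintro p q (h | ⟨h, h'⟩)
    · exact Or.inl h.symm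
    · refine Or.inr ⟨h.symm, ?_⟩
      rw [← h]
      exact ⟨h'.1.symm, h'.2.symm⟩⟩
  loopless := ⟨by
    rintro p (h | ⟨-, h⟩)
    · exact h rfl
    · exact h.1 rfl⟩

theorem pa_tri : ∀ (b : Bool) (x y z : Fin 5), pa b x y → pa b y z → ¬ pa b x z := by decide

/-- the cycles of the polygons -/
theorem cyc_one (b : Bool) (β : Fin 5 → Fin 5 → ℝ) (h1 : ∀ x y, β y x = - β x y)
    (h2 : ∀ x y, β x y ≠ 0 → pa b x y) (h3 : ∀ x, ∑ y, β x y = 0) (x y : Fin 5) :
    β x y = zz b x y * β 0 1 := by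
  have h0 : ∀ x y, ¬ pa b x y → β x y = 0 := fun x y h => by
    by_contra hc
    exact h (h2 x y hc)
  cases b
  · have a00 := h0 0 0 (by decide)
    have a02 := h0 0 2 (by decide)
    have a04 := h0 0 4 (by decide)
    have a11 := h0 1 1 (by decide)
    have a13 := h0 1 3 (by decide)
    have a14 := h0 1 4 (by decide)
    have a20 := h0 2 0 (by decide)
    have a22 := h0 2 2 (by decide)
    have a24 := h0 2 4 (by decide)
    have a31 := h0 3 1 (by decide)
    have a33 := h0 3 3 (by decide)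
    have a34 := h0 3 4 (by decide)
    have a40 := h0 4 0 (by decide)
    have a41 := h0 4 1 (by decide)
    have a42 := h0 4 2 (by decide)
    have a43 := h0 4 3 (by decide)
    have a44 := h0 4 4 (by decide)
    have r0 := h3 0
    have r1 := h3 1
    have r2 := h3 2
    have r3 := h3 3
    have s0 := h1 0 1
    have s1 := h1 1 2
    have s2 := h1 2 3
    have s3 := h1 3 0
    simp only [Fin.sum_univ_five] at r0 r1 r2 r3
    fin_cases x <;> fin_cases y <;> simp [zz, nx] <;> linarith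
  · have a00 := h0 0 0 (by decide)
    have a02 := h0 0 2 (by decide)
    have a03 := h0 0 3 (by decide)
    have a11 := h0 1 1 (by decide)
    have a13 := h0 1 3 (by decide)
    have a14 := h0 1 4 (by decide)
    have a20 := h0 2 0 (by decide)
    have a22 := h0 2 2 (by decide)
    have a24 := h0 2 4 (by decide)
    have a31 := h0 3 1 (by decide)
    have a33 := h0 3 3 (by decide)
    have a30 := h0 3 0 (by decide)
    have a41 := h0 4 1 (by decide)
    have a42 := h0 4 2 (by decide)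
    have a44 := h0 4 4 (by decide)
    have r0 := h3 0
    have r1 := h3 1
    have r2 := h3 2
    have r3 := h3 3
    have r4 := h3 4
    have s0 := h1 0 1
    have s1 := h1 1 2
    have s2 := h1 2 3
    have s3 := h1 3 4
    have s4 := h1 4 0
    simp only [Fin.sum_univ_five] at r0 r1 r2 r3 r4
    fin_cases x <;> fin_cases y <;> simp [zz, nx] <;> linarith

theorem ue_update_even (e : Fin k → Fin 5 × Fin 5) (i : Fin k) (x y : Fin 5) :
    ue (Function.update e i (x, y)) = Function.update (Function.update (ue e)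
      ⟨2 * i, by omega⟩ (i, x)) ⟨2 * i + 1, by omega⟩ (i, y) := by
  funext j
  rcases idx j with ⟨i', rfl⟩ | ⟨i', rfl⟩
  · have n1 : (⟨2 * i', by omega⟩ : Fin (2 * k)) ≠ ⟨2 * i + 1, by omega⟩ := by
      rw [Ne, Fin.mk.injEq]; omega
    rw [Function.update_of_ne n1]
    by_cases h : i' = i
    · subst h
      rw [ue_even, Function.update_self, Function.update_self]
    · have n2 : (⟨2 * i', by omega⟩ : Fin (2 * k)) ≠ ⟨2 * i, by omega⟩ := by
        rw [Ne, Fin.mk.injEq]
        intro e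
        exact h (Fin.ext (by omega))
      rw [Function.update_of_ne n2, ue_even, ue_even, Function.update_of_ne h]
  · rw [ue_odd]
    by_cases h : i' = i
    · subst h
      simp
    · rw [Function.update_of_ne h, Function.update_of_ne, Function.update_of_ne, ue_odd]
      · rw [Ne, Fin.mk.injEq]
        omega
      · rw [Ne, Fin.mk.injEq]
        intro e
        exact h (Fin.ext (by omega))

theorem ue_step {b : Fin k → Bool} {a : (Fin (2 * k) → Fin k × Fin 5) → ℝ}
    (ha : IsCyc (2 * k) (Gj b) a) (e : Fin k → Fin 5 × Fin 5) (i : Fin k) (x y : Fin 5) :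
    a (ue (Function.update e i (x, y))) =
      zz (b i) x y * a (ue (Function.update e i (0, 1))) := by
  refine cyc_one (b i) (fun x y => a (ue (Function.update e i (x, y)))) ?_ ?_ ?_ x y
  · intro x y
    rw [← ha.alt _ ⟨2 * i, by omega⟩ ⟨2 * i + 1, by omega⟩ (by rw [Ne, Fin.mk.injEq]; omega)]
    congr 1
    rw [ue_update_even, ue_update_even]
    funext j
    rw [Function.comp_apply]
    by_cases h1 : j = ⟨2 * i, by omega⟩
    · subst h1
      rw [Equiv.swap_apply_left]
      rw [Function.update_of_ne (by rw [Ne, Fin.mk.injEq]; omega), Function.update_self,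
        Function.update_self]
    · by_cases h2 : j = ⟨2 * i + 1, by omega⟩
      · subst h2
        rw [Equiv.swap_apply_right, Function.update_self,
          Function.update_of_ne (by rw [Ne, Fin.mk.injEq]; omega), Function.update_self]
      · rw [Equiv.swap_apply_of_ne_of_ne h1 h2, Function.update_of_ne h2,
          Function.update_of_ne h1, Function.update_of_ne h2, Function.update_of_ne h1]
  · intro x y h
    have h1 := ha.supp _ h ⟨2 * i, by omega⟩ ⟨2 * i + 1, by omega⟩
      (by rw [Ne, Fin.mk.injEq]; omega)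
    rw [ue_even, ue_odd, Function.update_self] at h1
    rcases h1 with h1 | ⟨-, h1⟩
    · exact absurd rfl h1
    · exact h1
  · intro x
    have h1 := ha.cyc (ue (Function.update e i (x, 0))) ⟨2 * i + 1, by omega⟩
    rw [Fintype.sum_prod_type, Finset.sum_eq_single i] at h1
    · rw [← h1]
      refine Finset.sum_congr rfl fun y _ => ?_
      congr 1
      rw [ue_update_even, ue_update_even, Function.update_idem]
    · intro i' _ hi'
      refine Finset.sum_eq_zero fun z _ => ?_
      by_contra hc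
      have hp : (⟨2 * i + 1, by omega⟩ : Fin (2 * k)) ≠ ⟨2 * i', by omega⟩ := by
        rw [Ne, Fin.mk.injEq]; omega
      have hq : (⟨2 * i + 1, by omega⟩ : Fin (2 * k)) ≠ ⟨2 * i' + 1, by omega⟩ := by
        rw [Ne, Fin.mk.injEq]
        intro e
        exact hi' (Fin.ext (by omega))
      have hpq : (⟨2 * i', by omega⟩ : Fin (2 * k)) ≠ ⟨2 * i' + 1, by omega⟩ := by
        rw [Ne, Fin.mk.injEq]; omega
      have g1 := ha.supp _ hc _ _ hp
      have g2 := ha.supp _ hc _ _ hq
      have g3 := ha.supp _ hc _ _ hpq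
      rw [Function.update_self, Function.update_of_ne hp.symm, ue_even] at g1
      rw [Function.update_self, Function.update_of_ne hq.symm, ue_odd] at g2
      rw [Function.update_of_ne hp.symm, Function.update_of_ne hq.symm, ue_even, ue_odd] at g3
      rcases g1 with g1 | ⟨-, g1⟩
      · exact g1 rfl
      rcases g2 with g2 | ⟨-, g2⟩
      · exact g2 rfl
      rcases g3 with g3 | ⟨-, g3⟩
      · exact g3 rfl
      exact pa_tri _ _ _ _ g1 g3 g2
    · intro h
      exact absurd (Finset.mem_univ _) h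

theorem ue_all {b : Fin k → Bool} {a : (Fin (2 * k) → Fin k × Fin 5) → ℝ}
    (ha : IsCyc (2 * k) (Gj b) a) (e : Fin k → Fin 5 × Fin 5) :
    a (ue e) = (∏ i, zz (b i) (e i).1 (e i).2) * a (ue fun _ => (0, 1)) := by
  have h : ∀ I : Finset (Fin k), a (ue e) = (∏ i ∈ I, zz (b i) (e i).1 (e i).2) *
      a (ue fun i => if i ∈ I then (0, 1) else e i) := by
    intro I
    induction I using Finset.induction_on with
    | empty => simp
    | insert i I hi ih =>
      rw [ih, Finset.prod_insert hi]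
      have h1 := ue_step ha (fun i => if i ∈ I then (0, 1) else e i) i (e i).1 (e i).2
      have e1 : Function.update (fun i => if i ∈ I then ((0 : Fin 5), (1 : Fin 5)) else e i) i
          ((e i).1, (e i).2) = fun i => if i ∈ I then (0, 1) else e i := by
        funext i'
        by_cases h : i' = i
        · subst h
          rw [Function.update_self, if_neg hi]
        · rw [Function.update_of_ne h]
      have e2 : Function.update (fun i => if i ∈ I then ((0 : Fin 5), (1 : Fin 5)) else e i) i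
          (0, 1) = fun i' => if i' ∈ insert i I then (0, 1) else e i' := by
        funext i'
        by_cases h : i' = i
        · subst h
          rw [Function.update_self, if_pos (Finset.mem_insert_self _ _)]
        · rw [Function.update_of_ne h]
          simp only [Finset.mem_insert, h, false_or]
      rw [e1, e2] at h1
      rw [h1]
      ring
  have := h Finset.univ
  simpa using this

/-- evaluation at the cycles of the join -/
theorem eval_join {a : (Fin (2 * k) → Fin k × Fin 5) → ℝ} (ha : IsCyc (2 * k) (Gj b) a) :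
    ∑ u, a u * ∏ i : Fin k, M3 (Q i).ξ (Dg Q u (2 * i) i) (Dg Q u (2 * i + 1) i)
      (Dg Q u (2 * i + 2) i) = a (ue fun _ => (0, 1)) * ∏ i, κ i := by
  have hinj : Function.Injective (ue : (Fin k → Fin 5 × Fin 5) → _) := by
    intro e e' h
    funext i
    have h1 := congrFun h ⟨2 * i, by omega⟩
    have h2 := congrFun h ⟨2 * i + 1, by omega⟩
    rw [ue_even, ue_even, Prod.mk.injEq] at h1
    rw [ue_odd, ue_odd, Prod.mk.injEq] at h2
    exact Prod.ext h1.2 h2.2
  have h1 : ∑ u, a u * ∏ i : Fin k, M3 (Q i).ξ (Dg Q u (2 * i) i) (Dg Q u (2 * i + 1) i)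
      (Dg Q u (2 * i + 2) i) = ∑ e : Fin k → Fin 5 × Fin 5, a (ue e) * ∏ i : Fin k,
        M3 (Q i).ξ (Dg Q (ue e) (2 * i) i) (Dg Q (ue e) (2 * i + 1) i)
          (Dg Q (ue e) (2 * i + 2) i) := by
    rw [← Finset.sum_image (f := fun u => a u * ∏ i : Fin k, M3 (Q i).ξ (Dg Q u (2 * i) i)
      (Dg Q u (2 * i + 1) i) (Dg Q u (2 * i + 2) i)) (g := ue) (s := Finset.univ)
      (fun _ _ _ _ h => hinj h)]
    symm
    refine Finset.sum_subset (Finset.subset_univ _) fun u _ hu => ?_
    by_cases h : ∀ i : Fin k, (u ⟨2 * i, by omega⟩).1 = i ∧ (u ⟨2 * i + 1, by omega⟩).1 = i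
    · exfalso
      apply hu
      rw [Finset.mem_image]
      refine ⟨fun i => ((u ⟨2 * i, by omega⟩).2, (u ⟨2 * i + 1, by omega⟩).2),
        Finset.mem_univ _, ?_⟩
      funext j
      rcases idx j with ⟨i, rfl⟩ | ⟨i, rfl⟩
      · rw [ue_even]
        exact Prod.ext (h i).1.symm rfl
      · rw [ue_odd]
        exact Prod.ext (h i).2.symm rfl
    · push Not at h
      obtain ⟨i, hi⟩ := h
      rw [Finset.prod_eq_zero (Finset.mem_univ i) (M3_zero Q u i fun e => hi e.1 e.2), mul_zero]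
  rw [h1]
  have h2 : ∀ e : Fin k → Fin 5 × Fin 5, a (ue e) * ∏ i : Fin k,
        M3 (Q i).ξ (Dg Q (ue e) (2 * i) i) (Dg Q (ue e) (2 * i + 1) i)
          (Dg Q (ue e) (2 * i + 2) i) = a (ue fun _ => (0, 1)) *
        ∏ i, (zz (b i) (e i).1 (e i).2 * Fv (Q i).ξ ((Q i).R (e i).1) ((Q i).R (e i).2)) := by
    intro e
    rw [ue_all ha e, Finset.prod_mul_distrib, Finset.prod_congr rfl fun i _ => ue_val Q e i]
    ring
  rw [Finset.sum_congr rfl fun e _ => h2 e, ← Finset.mul_sum]
  congr 1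
  have h3 := Finset.prod_univ_sum (fun _ : Fin k => (Finset.univ : Finset (Fin 5 × Fin 5)))
    (fun i p => zz (b i) p.1 p.2 * Fv (Q i).ξ ((Q i).R p.1) ((Q i).R p.2))
  rw [Fintype.piFinset_univ] at h3
  rw [← h3]
  refine Finset.prod_congr rfl fun i _ => ?_
  rw [Fintype.sum_prod_type]
  exact (Q i).val

end

end Pool.Agent.J4.H27.EC
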